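import Mathlib
import Pool.Agent.H.MP_7a60ac_an.A

set_option autoImplicit false

namespace Pool.Agent.H.MP_0e1b7e_an

open Complex Metric Finset PowerSeries Filter Topology
open Pool.Agent.H.MP_7a60ac_an

/-- `Q` is `P ^ β` up to order `n` -/
def IsPow (n : ℕ) (P : ℂ⟦X⟧) (β : ℂ) (Q : ℂ⟦X⟧) : Prop :=
  constantCoeff Q = 1 ∧ X ^ n ∣ P * d⁄dX ℂ Q - C β * d⁄dX ℂ P * Q

variable {n : ℕ} {P Q P' Q' ω : ℂ⟦X⟧} {β γ : ℂ}

theorem dvd_d {A : ℂ⟦X⟧} (h : X ^ (n + 1) ∣ A) : X ^ n ∣ d⁄dX ℂ A := by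
  rw [X_pow_dvd_iff] at h ⊢
  intro m hm
  rw [coeff_derivative, h _ (by omega), zero_mul]

theorem dvd_of_d {A : ℂ⟦X⟧} (h0 : constantCoeff A = 0) (h : X ^ n ∣ d⁄dX ℂ A) :
    X ^ (n + 1) ∣ A := by
  rw [X_pow_dvd_iff] at h ⊢
  rintro (_ | m) hm
  · simpa using h0
  · have := h m (by omega)
    rw [coeff_derivative] at this
    exact (mul_eq_zero.1 this).resolve_right (by exact_mod_cast m.succ_ne_zero)

theorem unit_of (h : constantCoeff P = 1) : IsUnit P :=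
  isUnit_iff_constantCoeff.2 (h ▸ isUnit_one)

theorem IsPow.uniq (hP : constantCoeff P = 1) (h : IsPow n P β Q) (h' : IsPow n P β Q') :
    X ^ (n + 1) ∣ Q - Q' := by
  have h0 : constantCoeff (Q - Q') = 0 := by simp [h.1, h'.1]
  have hd : X ^ n ∣ P * d⁄dX ℂ (Q - Q') - C β * d⁄dX ℂ P * (Q - Q') := by
    obtain ⟨a, ha⟩ := h.2
    obtain ⟨b, hb⟩ := h'.2
    exact ⟨a - b, by rw [map_sub]; linear_combination ha - hb⟩
  have : ∀ k ≤ n, X ^ (k + 1) ∣ Q - Q' := fun k hk => by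
    induction k with
    | zero => simpa [X_dvd_iff] using h0
    | succ k ih =>
      refine dvd_of_d h0 ((unit_of hP).dvd_mul_left.1 ?_)
      exact (dvd_sub_left ((ih (by omega)).mul_left _)).1 ((pow_dvd_pow _ hk).trans hd)
  exact this n le_rfl

theorem IsPow.coeff_eq (hP : constantCoeff P = 1) (h : IsPow n P β Q) (h' : IsPow n P β Q') :
    coeff n Q = coeff n Q' := by
  have := X_pow_dvd_iff.1 (h.uniq hP h') n n.lt_succ_self
  rwa [map_sub, sub_eq_zero] at this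

theorem IsPow.mono {k : ℕ} (h : IsPow n P β Q) (hk : k ≤ n) : IsPow k P β Q :=
  ⟨h.1, (pow_dvd_pow _ hk).trans h.2⟩

theorem IsPow.congr (h : IsPow n P β Q) (e : X ^ (n + 1) ∣ P' - P) : IsPow n P' β Q := by
  refine ⟨h.1, ?_⟩
  obtain ⟨a, ha⟩ := h.2
  obtain ⟨b, hb⟩ := dvd_d e
  obtain ⟨c, hc⟩ := e
  rw [map_sub] at hb
  exact ⟨a + X * c * d⁄dX ℂ Q - C β * b * Q, by
    linear_combination ha + d⁄dX ℂ Q * hc - C β * Q * hb⟩

theorem IsPow.mul (h : IsPow n P β Q) (h' : IsPow n P γ Q') : IsPow n P (β + γ) (Q * Q') := by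
  refine ⟨by simp [h.1, h'.1], ?_⟩
  obtain ⟨a, ha⟩ := h.2
  obtain ⟨b, hb⟩ := h'.2
  exact ⟨a * Q' + Q * b, by
    rw [Derivation.leibniz, map_add, smul_eq_mul, smul_eq_mul]; linear_combination Q' * ha + Q * hb⟩

theorem isPow_one (hP : constantCoeff P = 1) : IsPow n P 1 P := ⟨hP, by simp [mul_comm]⟩

/-- binomial coefficient -/
noncomputable def bin (β : ℝ) (j : ℕ) : ℝ := (∏ i ∈ range j, (β - i)) / j.factorial

theorem bin_succ (β : ℝ) (j : ℕ) : (j + 1) * bin β (j + 1) = (β - j) * bin β j := by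
  have : (j.factorial : ℝ) ≠ 0 := by exact_mod_cast j.factorial_ne_zero
  simp only [bin, prod_range_succ, Nat.factorial_succ]; push_cast; field_simp

theorem d_pow (a : ℂ⟦X⟧) (c : ℂ) (j : ℕ) :
    d⁄dX ℂ (C c * a ^ (j + 1)) = C ((j + 1) * c) * a ^ j * d⁄dX ℂ a := by
  rw [Derivation.leibniz, derivative_C, Derivation.leibniz_pow]
  simp only [smul_eq_mul, nsmul_eq_mul, map_mul, map_add, map_natCast, map_one, Nat.add_sub_cancel]
  push_cast; ring

theorem isPow_bin {a : ℂ⟦X⟧} (ha : constantCoeff a = 0) (β : ℝ) (n : ℕ) :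
    IsPow n (1 + a) β (∑ j ∈ range (n + 1), C (bin β j : ℂ) * a ^ j) := by
  refine ⟨by simp [sum_range_succ', ha, bin], ?_⟩
  have : (1 + a) * d⁄dX ℂ (∑ j ∈ range (n + 1), C (bin β j : ℂ) * a ^ j) - C (β : ℂ) *
      d⁄dX ℂ (1 + a) * ∑ j ∈ range (n + 1), C (bin β j : ℂ) * a ^ j =
      a ^ n * (C (((n - β) * bin β n : ℝ) : ℂ) * d⁄dX ℂ a) := by
    induction n with
    | zero => simp [bin]
    | succ n ih =>
      have e := congrArg (fun t : ℝ => (C (t : ℂ) : ℂ⟦X⟧)) (bin_succ β n)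
      rw [sum_range_succ, map_add, d_pow]
      simp only [map_add, Derivation.map_one_eq_zero, ofReal_mul, ofReal_add, ofReal_sub, map_mul,
        map_sub, ofReal_natCast, ofReal_one, map_natCast, map_one, Nat.cast_succ] at ih e ⊢
      linear_combination ih + a ^ n * d⁄dX ℂ a * e
  rw [this]
  exact (pow_dvd_pow_of_dvd (X_dvd_iff.2 ha) n).mul_right _

theorem isPow_exp {L : ℂ → ℂ} (hL : AnalyticAt ℂ L 0) (L0 : L 0 = 0) (a β : ℂ) (n : ℕ) :
    IsPow n (ts fun z => exp (a * L z)) β (ts fun z => exp (β * a * L z)) := by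
  refine ⟨by simp [ts, co, L0], ?_⟩
  have h : ∀ c : ℂ, AnalyticAt ℂ (fun z => exp (c * L z)) 0 := fun c => by fun_prop
  rw [← ts_deriv, ← ts_deriv, ← ts_cmul, ← ts_mul (h _) (h _).deriv,
    ← ts_mul (by have := (h a).deriv; fun_prop) (h _), ts_congr (g := fun z => β *
      deriv (fun z => exp (a * L z)) z * exp (β * a * L z)), sub_self]
  · exact dvd_zero _
  · filter_upwards [hL.eventually_analyticAt] with z hz
    have d := hz.differentiableAt.hasDerivAt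
    rw [(d.const_mul _).cexp.deriv, (d.const_mul _).cexp.deriv]; ring

/-- Taylor coefficients of `((1+w)/(1-w))^β` -/
noncomputable def cc (β : ℝ) : ℕ → ℝ
  | 0 => 1
  | 1 => 2 * β
  | j + 2 => (2 * β * cc β (j + 1) + j * cc β j) / (j + 2)

theorem cc_nonneg {β : ℝ} (h : 0 ≤ β) : ∀ j, 0 ≤ cc β j
  | 0 => zero_le_one
  | 1 => by rw [cc]; positivity
  | j + 2 => by
    have := cc_nonneg h j
    have := cc_nonneg h (j + 1)
    rw [cc]; positivity

theorem isPow_cc (h0 : constantCoeff ω = 0) (h : X ^ (n + 1) ∣ P * (1 - ω) - (1 + ω)) (β : ℝ) :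
    IsPow n P β (∑ j ∈ range (n + 1), C (cc β j : ℂ) * ω ^ j) := by
  refine ⟨by simp [sum_range_succ', h0, cc], ?_⟩
  have : ∀ N, (1 - ω ^ 2) * d⁄dX ℂ (∑ j ∈ range (N + 1), C (cc β j : ℂ) * ω ^ j) - 2 * C (β : ℂ) *
      d⁄dX ℂ ω * ∑ j ∈ range (N + 1), C (cc β j : ℂ) * ω ^ j =
      ω ^ N * -(d⁄dX ℂ ω * (C (((N + 1) * cc β (N + 1) : ℝ) : ℂ) + C ((N * cc β N : ℝ) : ℂ) * ω)) := by
    intro N
    induction N with
    | zero => simp [cc, map_ofNat]; ring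
    | succ N ih =>
      have e0 : (N + 2) * cc β (N + 2) = 2 * β * cc β (N + 1) + N * cc β N := by
        rw [cc]; exact mul_div_cancel₀ _ (by positivity)
      have e := congrArg (fun t : ℝ => (C (t : ℂ) : ℂ⟦X⟧)) e0
      rw [sum_range_succ, map_add, d_pow]
      simp only [map_add, ofReal_mul, ofReal_add, map_mul, ofReal_ofNat, map_ofNat,
        ofReal_natCast, ofReal_one, map_natCast, map_one, Nat.cast_succ] at ih e ⊢
      linear_combination ih + ω ^ (N + 1) * d⁄dX ℂ ω * e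
  obtain ⟨a, ha⟩ := ((pow_dvd_pow_of_dvd (X_dvd_iff.2 h0) n).mul_right _).trans
    (dvd_of_eq (this n).symm)
  obtain ⟨b, hb⟩ := dvd_d h
  obtain ⟨c, hc⟩ := h
  have u : IsUnit ((1 - ω) ^ 2) := (unit_of (by simp [h0])).pow 2
  refine u.dvd_mul_left.1 ?_
  rw [map_sub, Derivation.leibniz, map_sub, map_add, Derivation.map_one_eq_zero, smul_eq_mul,
    smul_eq_mul] at hb
  generalize ∑ j ∈ range (n + 1), C (cc β j : ℂ) * ω ^ j = S at ha ⊢
  exact ⟨a + (1 - ω) * X * c * d⁄dX ℂ S - C (β : ℂ) * S * ((1 - ω) * b + d⁄dX ℂ ω * X * c), by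
    linear_combination ha + (1 - ω) * d⁄dX ℂ S * hc - C (β : ℂ) * S * ((1 - ω) * hb +
      d⁄dX ℂ ω * hc)⟩

end Pool.Agent.H.MP_0e1b7e_an
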