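import Mathlib

set_option autoImplicit false

namespace Pool.Agent.H.MP_0e1b7e_an

open Finset PowerSeries

theorem kaluza {α : ℝ} (h0 : 0 < α) : ∃ F : ℝ⟦X⟧, constantCoeff F = 0 ∧ (∀ k, 0 ≤ coeff k F) ∧
    (1 - F) * mk (fun j : ℕ => α / (j + α)) = 1 := by
  obtain ⟨u, hu⟩ : ∃ u : ℕ → ℝ, u = fun j : ℕ => α / (j + α) := ⟨_, rfl⟩
  have u0 : u 0 = 1 := by simp [hu, h0.ne']
  have up : ∀ j, 0 < u j := fun j => by rw [hu]; positivity
  have c0 : constantCoeff (mk u) = 1 := by simpa using u0
  obtain ⟨F, hF⟩ : ∃ F : ℝ⟦X⟧, F = 1 - (mk u)⁻¹ := ⟨_, rfl⟩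
  have e : (1 - F) * mk u = 1 := by
    rw [hF, sub_sub_cancel, PowerSeries.inv_mul_cancel _ (by simp [u0])]
  have F0 : constantCoeff F = 0 := by simp [hF, u0]
  refine ⟨F, F0, fun k => ?_, hu ▸ e⟩
  have r : ∀ n, u (n + 1) = ∑ k ∈ range (n + 2), coeff k F * u (n + 1 - k) := fun n => by
    have := congrArg (coeff (n + 1)) e
    rw [sub_mul, one_mul, map_sub, coeff_mul, Nat.sum_antidiagonal_eq_sum_range_succ_mk,
      coeff_one, if_neg n.succ_ne_zero, sub_eq_zero] at this
    simpa using this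
  induction k using Nat.strong_induction_on with
  | _ k ih =>
    rcases k with _ | _ | n
    · simp [F0]
    · have := r 0
      simp [sum_range_succ, F0, u0] at this
      exact this ▸ (up 1).le
    · have h1 := r n
      have h2 := r (n + 1)
      rw [sum_range_succ, Nat.sub_self, u0, mul_one] at h2
      have : ∑ k ∈ range (n + 2), coeff k F * u (n + 1 + 1 - k) * u (n + 1) ≤
          ∑ k ∈ range (n + 2), coeff k F * u (n + 1 - k) * u (n + 1 + 1) := by
        refine sum_le_sum fun k hk => ?_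
        have hk' := mem_range.1 hk
        obtain ⟨a, ha⟩ : ∃ a, n + 1 = a + k := ⟨n + 1 - k, by omega⟩
        rw [mul_assoc, mul_assoc, ha, show a + k + 1 - k = a + 1 by omega, Nat.add_sub_cancel, hu]
        refine mul_le_mul_of_nonneg_left ?_ (ih k hk')
        simp only [div_mul_div_comm]
        refine div_le_div_of_nonneg_left (by positivity) (by positivity) ?_
        push_cast; nlinarith [k.cast_nonneg (α := ℝ)]
      rw [← sum_mul, ← sum_mul, ← h1] at this
      have := up (n + 1)
      by_contra hn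
      nlinarith

end Pool.Agent.H.MP_0e1b7e_an
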