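import Mathlib
import Pool.Agent.H.MP_0e1b7e_an.A

set_option autoImplicit false

namespace Pool.Agent.H.MP_0e1b7e_an

open Complex Metric Finset PowerSeries Filter Topology
open scoped ComplexConjugate Real
open Pool.Agent.H.MP_7a60ac_an

/-- moment curve -/
def cv (n : ℕ) (x : ℂ) : Fin (n + 1) → ℂ := fun j => x ^ (j : ℕ)

/-- Caratheodory body -/
def TT (n : ℕ) : Set (Fin (n + 1) → ℂ) := closure (convexHull ℝ (cv n '' sphere 0 1))

variable {n : ℕ}

theorem TT_ind {p : (Fin (n + 1) → ℂ) → Prop} (hp : IsClosed {c | p c})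
    (h : ∀ (ι : Type) [Fintype ι] (w : ι → ℝ) (x : ι → ℂ), (∀ a, 0 ≤ w a) → ∑ a, w a = 1 →
      (∀ a, ‖x a‖ = 1) → p fun j => ∑ a, w a * x a ^ (j : ℕ)) : ∀ c ∈ TT n, p c := by
  refine closure_minimal (fun c hc => ?_) hp
  obtain ⟨ι, _, w, z, h0, h1, hz, rfl⟩ := mem_convexHull_iff_exists_fintype.1 hc
  choose x hx e using hz
  have := h ι w x h0 h1 (by simpa using hx)
  rwa [show ∑ i, w i • z i = fun j : Fin (n + 1) => ∑ a, w a * x a ^ (j : ℕ) by
    ext j; simp [← e, cv]]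

theorem TT_cpt : IsCompact (TT n) := by
  have c : Continuous (cv n) := continuous_pi fun j => continuous_pow _
  exact (isBounded_convexHull.2 ((isCompact_sphere 0 1).image c).isBounded).isCompact_closure

theorem TT_mem {G : ℂ → ℂ} (hG : DifferentiableOn ℂ G (ball 0 1)) (G0 : G 0 = 1)
    (hp : ∀ z ∈ ball (0 : ℂ) 1, 0 ≤ (G z).re) :
    (fun j : Fin (n + 1) => if (j : ℕ) = 0 then 1 else co G j / 2) ∈ TT n := by
  have key : ∀ r : ℝ, 0 < r → r < 1 → (fun j : Fin (n + 1) =>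
      (if (j : ℕ) = 0 then 1 else co G j / 2) * (r : ℂ) ^ (j : ℕ)) ∈ TT n := fun r h0 h1 => by
    have r0 : (r : ℂ) ≠ 0 := by exact_mod_cast h0.ne'
    have hs : ∀ z ∈ sphere (0 : ℂ) |r|, ‖z‖ = r := fun z hz => by simpa [abs_of_pos h0] using hz
    have z0 : ∀ z ∈ sphere (0 : ℂ) |r|, z ≠ 0 := fun z hz h => by
      have := hs z hz; rw [h, norm_zero] at this; exact h0.ne this
    have c : ContinuousOn G (sphere 0 |r|) := hG.continuousOn.mono fun z hz => by
      simpa [hs z hz] using h1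
    have c0 : co G 0 = 1 := by simp [co, G0]
    have av : ∀ j : ℕ, Real.circleAverage (fun z => ((G z).re : ℂ) * (r / z) ^ j) 0 r =
        (if j = 0 then 1 else co G j / 2) * (r : ℂ) ^ j := fun j => by
      have ci : ∀ (i j : ℕ), CircleIntegrable (fun z => G z * z ^ i / z ^ j) 0 r := fun i j =>
        ContinuousOn.circleIntegrable'
          (by fun_prop (disch := exact fun z hz => pow_ne_zero _ (z0 z hz)))
      have e := conjCLE.toContinuousLinearMap.circleAverage_comp_comm (ci j 0)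
      rw [Real.circleAverage_congr_sphere (f₂ := ((r : ℂ) ^ j / 2) • (fun z => G z * z ^ 0 / z ^ j) +
        (1 / (2 * (r : ℂ) ^ j)) • (conjCLE.toContinuousLinearMap ∘ fun z => G z * z ^ j / z ^ 0)),
        Real.circleAverage_add, Real.circleAverage_smul, Real.circleAverage_smul, e, avg hG h0 h1,
        avg hG h0 h1]
      · rcases j with _ | j <;> simp [c0]
        · norm_num
        · ring
      · exact (ci 0 j).const_smul
      · refine CircleIntegrable.const_smul (ContinuousOn.circleIntegrable' ?_)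
        exact conjCLE.continuous.comp_continuousOn (by fun_prop (disch := simp))
      · intro z hz
        have hc : conj z = r ^ 2 / z := by
          rw [eq_div_iff (z0 z hz), mul_comm, mul_conj, normSq_eq_norm_sq, hs z hz]; simp
        have := z0 z hz
        simp [hc, re_eq_add_conj, div_pow, ← pow_mul, two_mul, pow_add]; field_simp; ring
    by_contra hn
    obtain ⟨f, u, hf, hu⟩ := geometric_hahn_banach_point_closed
      (convex_convexHull ℝ _).closure isClosed_closure hn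
    have cF : ContinuousOn (fun z => (G z).re • cv n (r / z)) (sphere 0 |r|) :=
      (continuous_re.comp_continuousOn c).smul (continuousOn_pi.2 fun j => by
        simp only [cv]; fun_prop (disch := exact z0))
    have e1 : Real.circleAverage (fun z => (G z).re • cv n (r / z)) 0 r = fun j : Fin (n + 1) =>
        (if (j : ℕ) = 0 then 1 else co G j / 2) * (r : ℂ) ^ (j : ℕ) := by
      ext j
      rw [← av]
      exact ((ContinuousLinearMap.proj j : (Fin (n + 1) → ℂ) →L[ℝ] ℂ).circleAverage_comp_comm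
        cF.circleIntegrable').symm
    have e2 : Real.circleAverage (fun z => (G z).re) 0 r = 1 := by
      have := av 0
      simp only [pow_zero, mul_one, if_true] at this
      have e := ofRealCLM.circleAverage_comp_comm (c := 0) (R := r)
        (continuous_re.comp_continuousOn c).circleIntegrable'
      exact ofReal_injective (e.symm.trans this)
    rw [← e1, ← f.circleAverage_comp_comm cF.circleIntegrable'] at hf
    refine hf.not_ge ?_
    rw [← mul_one u, ← e2, ← smul_eq_mul, ← Real.circleAverage_fun_smul]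
    refine Real.circleAverage_mono ((continuous_re.comp_continuousOn c).circleIntegrable'.const_smul)
      (f.continuous.comp_continuousOn cF).circleIntegrable' fun z hz => ?_
    simp only [Function.comp, map_smul, smul_eq_mul, mul_comm u]
    refine mul_le_mul_of_nonneg_left (hu _ (subset_closure (subset_convexHull _ _ ⟨_, ?_, rfl⟩))).le
      (hp z (by simpa [hs z hz] using h1))
    simp [hs z hz, abs_of_pos h0, h0.ne']
  have c : Continuous fun (r : ℝ) (j : Fin (n + 1)) =>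
      (if (j : ℕ) = 0 then 1 else co G j / 2) * (r : ℂ) ^ (j : ℕ) := by fun_prop
  have := isClosed_closure.mem_of_tendsto ((c.tendsto 1).mono_left
    (nhdsWithin_le_nhds (s := Set.Iio 1)))
    (mem_of_superset (Ioo_mem_nhdsLT one_pos) fun r hr => key r hr.1 hr.2)
  simpa [TT] using this

/-- weighted series without constant term -/
noncomputable def aa (u : ℕ → ℝ) (c : Fin (n + 1) → ℂ) : ℂ⟦X⟧ :=
  PowerSeries.mk fun j => if h : 0 < j ∧ j < n + 1 then 2 * u j * c ⟨j, h.2⟩ else 0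

/-- binomial sum -/
noncomputable def BS (β : ℝ) (n : ℕ) (a : ℂ⟦X⟧) : ℂ⟦X⟧ :=
  ∑ j ∈ range (n + 1), C (bin β j : ℂ) * a ^ j

/-- rotated weighted kernel -/
noncomputable def KX (u : ℕ → ℝ) (x : ℂ) : ℂ⟦X⟧ :=
  PowerSeries.mk fun j => if j = 0 then 1 else 2 * u j * x ^ j

theorem aa0 (u : ℕ → ℝ) (c : Fin (n + 1) → ℂ) : constantCoeff (aa u c) = 0 := by simp [aa]

theorem BS_pow (β : ℝ) (u : ℕ → ℝ) (c : Fin (n + 1) → ℂ) :
    IsPow n (1 + aa u c) β (BS β n (aa u c)) := isPow_bin (aa0 u c) β n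

theorem BS_cont (β : ℝ) (u : ℕ → ℝ) (k : ℕ) :
    Continuous fun c : Fin (n + 1) → ℂ => coeff k (BS β n (aa u c)) := by
  have : ∀ j k, Continuous fun c : Fin (n + 1) → ℂ => coeff k (aa u c ^ j) := fun j => by
    induction j with
    | zero => exact fun k => continuous_const
    | succ j ih =>
      intro k
      simp only [pow_succ, coeff_mul]
      refine continuous_finsetSum _ fun p _ => (ih _).mul ?_
      simp only [aa, coeff_mk]
      split_ifs <;> fun_prop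
  simp only [BS, map_sum, coeff_C_mul]
  exact continuous_finsetSum _ fun j _ => (this j k).const_mul _

theorem aa_sum {ι : Type} [Fintype ι] {w : ι → ℝ} (h : ∑ a, w a = 1) (x : ι → ℂ) (u : ℕ → ℝ) :
    X ^ (n + 1) ∣ 1 + aa u (fun j : Fin (n + 1) => ∑ a, w a * x a ^ (j : ℕ)) -
      ∑ a, C (w a : ℂ) * KX u (x a) := by
  rw [X_pow_dvd_iff]
  rintro (_ | m) hm
  · simp [aa, KX, ← ofReal_sum, h]
  · simp [aa, KX, coeff_one, show m < n by omega, mul_sum, mul_left_comm]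

theorem KX_eq (x : ℂ) : KX 1 x * (1 - C x * X) = 1 + C x * X := by
  ext k
  rw [mul_sub, mul_left_comm]
  rcases k with _ | _ | k <;> simp [KX, coeff_one] <;> ring

theorem k_re {x z : ℂ} (hx : ‖x‖ = 1) (hz : z ∈ ball (0 : ℂ) 1) :
    1 - x * z ≠ 0 ∧ 0 < ((1 + x * z) / (1 - x * z)).re := by
  have h : ‖x * z‖ < 1 := by simpa [hx] using hz
  generalize x * z = w at h
  have h0 : 1 - w ≠ 0 := fun e => by rw [← sub_eq_zero.1 e] at h; simp at h
  refine ⟨h0, ?_⟩
  have := pow_lt_one₀ (norm_nonneg w) h two_ne_zero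
  rw [← normSq_eq_norm_sq, normSq_apply] at this
  rw [div_re, ← add_div]
  exact div_pos (by simp; linarith) (normSq_pos.2 h0)

theorem k_diff {x : ℂ} (hx : ‖x‖ = 1) :
    DifferentiableOn ℂ (fun z => (1 + x * z) / (1 - x * z)) (ball 0 1) :=
  DifferentiableOn.div (by fun_prop) (by fun_prop) fun _ hz => (k_re hx hz).1

theorem ts_k {x : ℂ} (hx : ‖x‖ = 1) : ts (fun z => (1 + x * z) / (1 - x * z)) = KX 1 x := by
  have hb := ball_mem_nhds (0 : ℂ) one_pos
  have t : ∀ y : ℂ, ts (fun z => 1 + y * z) = 1 + C y * X := fun y => by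
    rw [ts_add (by fun_prop) (by fun_prop), ts_cmul (f := fun z => z), ts_id]
    congr 1; ext k; simp [ts, co, iteratedDeriv_const, coeff_one]; split_ifs with h <;> simp [h]
  refine mul_right_cancel₀ (unit_of (P := 1 - C x * X) (by simp)).ne_zero ?_
  rw [KX_eq, sub_eq_add_neg 1 (C x * X), ← neg_mul, ← map_neg, ← t, ← t,
    ← ts_mul ((k_diff hx).analyticAt hb) (by fun_prop)]
  refine ts_congr (mem_of_superset hb fun z hz => ?_)
  have := (k_re hx hz).1
  show _ / _ * _ = _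
  rw [neg_mul, ← sub_eq_add_neg, div_mul_cancel₀ _ this]

theorem log_facts {G : ℂ → ℂ} (hG : DifferentiableOn ℂ G (ball 0 1))
    (hp : ∀ z ∈ ball (0 : ℂ) 1, 0 < (G z).re) :
    DifferentiableOn ℂ (fun z => log (G z)) (ball 0 1) ∧ ts (fun z => exp (log (G z))) = ts G ∧
      ∀ z ∈ ball (0 : ℂ) 1, |(log (G z)).im| ≤ π / 2 :=
  ⟨hG.clog fun z hz => .inl (hp z hz), ts_congr (mem_of_superset (ball_mem_nhds 0 one_pos)
    fun z hz => exp_log fun e => by simpa [e] using hp z hz),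
    fun z hz => log_im _ ▸ abs_arg_le_pi_div_two_iff.2 (hp z hz).le⟩

theorem re_exp_nonneg {w : ℂ} (h : |w.im| ≤ π / 2) : 0 ≤ (exp w).re := by
  rw [exp_re]
  exact mul_nonneg (Real.exp_pos _).le (Real.cos_nonneg_of_mem_Icc (abs_le.1 h))

theorem sec {δ : ℝ} (h0 : 0 < δ) {L : ℂ → ℂ} (hL : DifferentiableOn ℂ L (ball 0 1)) (L0 : L 0 = 0)
    (hi : ∀ z ∈ ball (0 : ℂ) 1, |(L z).im| ≤ δ * (π / 2)) {x : ℂ} (hx : ‖x‖ = 1) (n : ℕ) :
    ∃ c ∈ TT n, X ^ (n + 1) ∣ KX 1 x * ts (fun z => exp (L z)) - BS (1 + δ) n (aa 1 c) := by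
  have hb := ball_mem_nhds (0 : ℂ) one_pos
  obtain ⟨k1, k2, k3⟩ := log_facts (k_diff hx) fun z hz => (k_re hx hz).2
  have b0 : (0 : ℝ) < 1 + δ := by linarith
  have dM := k1.add hL
  have p := isPow_exp (dM.analyticAt hb) (by simp [L0]) ((1 + δ)⁻¹ : ℝ) (1 + δ : ℝ) n
  refine ⟨_, TT_mem (dM.const_mul (((1 + δ)⁻¹ : ℝ) : ℂ)).cexp (by simp [L0])
    fun z hz => re_exp_nonneg ?_, ?_⟩
  · rw [im_ofReal_mul, abs_mul, abs_of_pos (inv_pos.2 b0), inv_mul_le_iff₀ b0, Pi.add_apply, add_im]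
    linarith [abs_add_le _ _ |>.trans (add_le_add (k3 z hz) (hi z hz))]
  · refine IsPow.uniq (by simp [aa0]) ?_ (BS_pow _ _ _)
    rw [← ts_k hx, ← k2, ← ts_mul (k1.analyticAt hb).cexp' (hL.analyticAt hb).cexp']
    simp only [← ofReal_mul, mul_inv_cancel₀ b0.ne', ofReal_one, one_mul, Pi.add_apply,
      Complex.exp_add] at p
    refine p.congr (X_pow_dvd_iff.2 ?_)
    rintro (_ | m) hm
    · simp [aa, ts, co, L0]
    · simp [aa, ts, coeff_one, show m < n by omega, mul_div_cancel₀]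

theorem co_eq {A B : ℂ⟦X⟧} (h : X ^ (n + 1) ∣ A - B) {k : ℕ} (hk : k ≤ n) :
    coeff k A = coeff k B := by
  have := X_pow_dvd_iff.1 h k (by omega)
  rwa [map_sub, sub_eq_zero] at this

theorem kx_pow (x : ℂ) (β : ℝ) (n : ℕ) :
    IsPow n (KX 1 x) β (∑ j ∈ range (n + 1), C (cc β j : ℂ) * (C x * X) ^ j) :=
  isPow_cc (by simp) (by simp [KX_eq]) β

theorem kx_co (x : ℂ) (a : ℕ → ℂ) {k : ℕ} (hk : k ≤ n) :
    coeff k (∑ j ∈ range (n + 1), C (a j) * (C x * X) ^ j) = a k * x ^ k := by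
  simp [mul_pow, ← map_pow, coeff_X_pow, Nat.lt_succ_of_le hk]

theorem split {δ : ℝ} (h0 : 0 < δ) {ι : Type} [Fintype ι] {w : ι → ℝ} {x : ι → ℂ}
    (hw : ∀ a, 0 ≤ w a) (h1 : ∑ a, w a = 1) (hx : ∀ a, ‖x a‖ = 1) (n : ℕ) :
    ∃ G : ℂ⟦X⟧, constantCoeff G = 1 ∧ (X ^ (n + 1) ∣ BS (1 + δ) n
      (aa 1 fun j : Fin (n + 1) => ∑ a, w a * x a ^ (j : ℕ)) - ∑ a, C (w a : ℂ) * (KX 1 (x a) * G)) ∧
      ∀ a, ∃ c ∈ TT n, X ^ (n + 1) ∣ KX 1 (x a) * G - BS (1 + δ) n (aa 1 c) := by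
  have hb := ball_mem_nhds (0 : ℂ) one_pos
  obtain ⟨P, hP⟩ : ∃ P : ℂ → ℂ, P = fun z => ∑ a, w a * ((1 + x a * z) / (1 - x a * z)) := ⟨_, rfl⟩
  have dP : DifferentiableOn ℂ P (ball 0 1) :=
    hP ▸ DifferentiableOn.fun_sum fun a _ => (k_diff (hx a)).const_mul _
  have pP : ∀ z ∈ ball (0 : ℂ) 1, 0 < (P z).re := fun z hz => by
    obtain ⟨a, -, ha⟩ := exists_ne_zero_of_sum_ne_zero (h1 ▸ one_ne_zero : ∑ a, w a ≠ 0)
    simp only [hP, re_sum, re_ofReal_mul]
    exact sum_pos' (fun a _ => mul_nonneg (hw a) (k_re (hx a) hz).2.le)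
      ⟨a, mem_univ _, mul_pos ((hw a).lt_of_ne' ha) (k_re (hx a) hz).2⟩
  have P0 : P 0 = 1 := by simp [hP, ← ofReal_sum, h1]
  have tP : ts P = ∑ a, C (w a : ℂ) * KX 1 (x a) := by
    ext k
    simp only [← ts_k (hx _), ← ts_cmul]
    simp only [hP, ts, coeff_mk, co, map_sum]
    rw [iteratedDeriv_fun_sum fun a _ =>
      (((k_diff (hx a)).const_mul _).analyticAt hb).contDiffAt, sum_div]
  obtain ⟨k1, k2, k3⟩ := log_facts dP pP
  have p := isPow_exp (k1.analyticAt hb) (by simp [P0]) 1 δ n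
  simp only [one_mul, mul_one, k2] at p
  refine ⟨_, p.1, ?_, fun a => sec h0 (k1.const_mul _) (by simp [P0]) (fun z hz => ?_) (hx a) n⟩
  · simp only [← mul_assoc, ← sum_mul, ← tP]
    refine IsPow.uniq (by simp [aa0]) (BS_pow _ _ _) ?_
    have := ((isPow_one (by simp [ts, co, P0])).mul p).congr (tP ▸ aa_sum h1 x 1)
    exact_mod_cast this
  · rw [im_ofReal_mul, abs_mul, abs_of_pos h0]
    exact mul_le_mul_of_nonneg_left (k3 z hz) h0.le

theorem TT_curve {c : Fin (n + 2) → ℂ} (hc : c ∈ TT (n + 1)) (h : 1 ≤ ‖c 1‖) :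
    ‖c 1‖ = 1 ∧ c = cv _ (c 1) := by
  have key := TT_ind (n := n + 1) (p := fun c => c 0 = 1 ∧ ∀ j : Fin (n + 1),
    ‖c j.succ - c 1 * c j.castSucc‖ ^ 2 ≤ 1 - ‖c 1‖ ^ 2) ?_ ?_ c hc
  · have : ∀ j : Fin (n + 1), c j.succ = c 1 * c j.castSucc ∧ ‖c 1‖ = 1 := fun j => by
      have := key.2 j
      have h2 := one_le_pow₀ (n := 2) h
      have := sq_nonneg ‖c j.succ - c 1 * c j.castSucc‖
      exact ⟨by rw [← sub_eq_zero, ← norm_eq_zero, ← sq_eq_zero_iff]; linarith,
        (pow_eq_one_iff_of_nonneg (norm_nonneg _) two_ne_zero).1 (by linarith)⟩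
    refine ⟨(this 0).2, funext fun j => ?_⟩
    induction j using Fin.induction with
    | zero => simp [cv, key.1]
    | succ j ih => rw [(this j).1, ih]; simp [cv, pow_succ']
  · simp only [Set.ofPred_and, Set.ofPred_forall]
    exact (isClosed_eq (by fun_prop) (by fun_prop)).inter
      (isClosed_iInter fun j => isClosed_le (by fun_prop) (by fun_prop))
  · intro ι _ w x hw h1 hx
    refine ⟨by simp [← ofReal_sum, h1], fun j => ?_⟩
    simp only [Fin.val_succ, Fin.val_castSucc, Fin.val_one, pow_one]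
    generalize hy : ∑ a, w a * x a = y
    calc _ = ‖∑ a, w a * (x a ^ (j : ℕ) * (x a - y))‖ ^ 2 := by
          simp only [mul_sum, ← sum_sub_distrib]; congr 3; ext a; ring
      _ ≤ (∑ a, w a * ‖x a - y‖) ^ 2 := by
          refine pow_le_pow_left₀ (norm_nonneg _) ((norm_sum_le _ _).trans_eq ?_) 2
          simp [hx, abs_of_nonneg (hw _)]
      _ ≤ ∑ a, w a * ‖x a - y‖ ^ 2 :=
          Real.pow_arith_mean_le_arith_mean_pow _ _ _ (fun a _ => hw a) h1 (fun _ _ => norm_nonneg _) 2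
      _ = ∑ a, (w a * (1 + normSq y) - 2 * (w a * x a * conj y).re) := by
          refine sum_congr rfl fun a _ => ?_
          rw [← normSq_eq_norm_sq, normSq_sub, normSq_eq_norm_sq (x a), hx, mul_assoc,
            re_ofReal_mul]; ring
      _ = _ := by
          rw [sum_sub_distrib, ← sum_mul, ← mul_sum, ← re_sum, ← sum_mul, hy, h1, mul_conj,
            ← normSq_eq_norm_sq, ofReal_re]; ring

theorem bck {δ : ℝ} (h0 : 0 < δ) (n : ℕ) :
    ∀ c ∈ TT n, ‖coeff n (BS (1 + δ) n (aa 1 c))‖ ≤ cc (1 + δ) n := by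
  intro c hc
  rcases n with _ | n
  · simp [BS, cc, bin]
  obtain ⟨l, hl, e⟩ := exists_norm_eq_mul_self (coeff (n + 1) (BS (1 + δ) (n + 1) (aa 1 c)))
  refine le_of_forall_pos_le_add fun ε hε => ?_
  obtain ⟨η, hη⟩ : ∃ η, η = ε / (2 * (1 + δ)) ^ 2 := ⟨_, rfl⟩
  have η0 : 0 < η := by rw [hη]; positivity
  obtain ⟨Φ, hΦ⟩ : ∃ Φ : ℂ⟦X⟧ → ℝ, Φ = fun A =>
    (l * coeff (n + 1) A).re + η * ‖coeff 1 A‖ ^ 2 := ⟨_, rfl⟩
  have cΦ : Continuous fun c : Fin (n + 2) → ℂ => Φ (BS (1 + δ) (n + 1) (aa 1 c)) := by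
    have h1 := BS_cont (n := n + 1) (1 + δ) 1 (n + 1)
    have h2 := BS_cont (n := n + 1) (1 + δ) 1 1
    rw [hΦ]; fun_prop
  have eΦ : ∀ {A B : ℂ⟦X⟧}, X ^ (n + 2) ∣ A - B → Φ A = Φ B := fun h => by
    simp only [hΦ, co_eq h le_rfl, co_eq h (show 1 ≤ n + 1 by omega)]
  obtain ⟨d, hd, hm⟩ := TT_cpt.exists_isMaxOn ⟨c, hc⟩ cΦ.continuousOn
  have key := TT_ind (n := n + 1) (p := fun c => Φ (BS (1 + δ) (n + 1) (aa 1 c)) +
    η * (4 * (1 - ‖c 1‖ ^ 2)) ≤ Φ (BS (1 + δ) (n + 1) (aa 1 d)))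
    (isClosed_le (cΦ.add (by fun_prop)) continuous_const) ?_ d hd
  · obtain ⟨d1, d2⟩ := TT_curve hd (by
      by_contra h
      have := pow_lt_one₀ (norm_nonneg _) (not_le.1 h) two_ne_zero
      nlinarith)
    have := aa_sum (ι := Unit) (w := fun _ => 1) (n := n + 1) (by simp) (fun _ => d 1) 1
    simp only [univ_unique, sum_singleton, ofReal_one, one_mul, map_one] at this
    have := eΦ (IsPow.uniq (by simp [aa0]) (BS_pow (1 + δ) 1 _) ((kx_pow _ _ _).congr this))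
    have h2 : Φ _ ≤ Φ _ := hm hc
    rw [d2] at h2
    replace h2 := h2.trans_eq this
    have c0 := cc_nonneg (β := 1 + δ) (by linarith) (n + 1)
    have h3 := re_le_norm (l * (cc (1 + δ) (n + 1) * d 1 ^ (n + 1)))
    simp only [hΦ, kx_co _ (fun j => (cc (1 + δ) j : ℂ)) le_rfl,
      kx_co _ (fun j => (cc (1 + δ) j : ℂ)) (show 1 ≤ n + 1 by omega), ← e, ofReal_re] at h2
    simp only [norm_mul, norm_pow, d1, hl, norm_real, Real.norm_eq_abs, sq_abs, one_pow, mul_one,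
      one_mul, abs_of_nonneg c0] at h2 h3
    rw [show cc (1 + δ) 1 = 2 * (1 + δ) from rfl, hη, div_mul_cancel₀ _ (by positivity)] at h2
    nlinarith [show 0 ≤ ε / (2 * (1 + δ)) ^ 2 * ‖coeff 1 (BS (1 + δ) (n + 1) (aa 1 c))‖ ^ 2 by
      positivity]
  · intro ι _ w x hw h1 hx
    obtain ⟨G, G0, hG, hs⟩ := split h0 hw h1 hx (n + 1)
    have : ∑ a, w a * Φ (KX 1 (x a) * G) ≤ ∑ a, w a * Φ (BS (1 + δ) (n + 1) (aa 1 d)) :=
      sum_le_sum fun a _ => by
        obtain ⟨c, hc, h⟩ := hs a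
        exact mul_le_mul_of_nonneg_left ((eΦ h).trans_le (hm hc)) (hw a)
    rw [← sum_mul, h1, one_mul] at this
    refine le_trans (le_of_eq ?_) this
    have c1 : ∀ a, coeff 1 (KX 1 (x a) * G) = coeff 1 G + 2 * x a := fun a => by
      simp [coeff_one_mul, KX, G0, add_comm]
    have w1 : ∑ a, (w a : ℂ) = 1 := by exact_mod_cast h1
    simp only [eΦ hG]
    simp only [hΦ, map_sum, coeff_C_mul, c1, mul_add, sum_add_distrib, ← sum_mul, w1, one_mul,
      Fin.val_one, pow_one, add_assoc, mul_left_comm (w _ : ℂ), ← mul_sum, mul_left_comm (w _) η]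
    congr 1
    · simp only [mul_sum, re_sum, mul_left_comm l, re_ofReal_mul]
    · rw [← mul_add]
      congr 1
      simp only [← normSq_eq_norm_sq, normSq_add, normSq_eq_norm_sq (x _), hx, mul_add,
        sum_add_distrib, ← sum_mul, h1, map_mul, map_sum, conj_ofReal, mul_sum, re_sum,
        mul_left_comm _ (w _ : ℂ), re_ofReal_mul, mul_left_comm (w _) (2 : ℝ)]
      simp only [mul_left_comm (w _ : ℂ) 2, normSq_ofNat, ← mul_sum, normSq_mul]; ring

end Pool.Agent.H.MP_0e1b7e_an
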