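import Mathlib
import Pool.Agent.H.MP_7a60ac_an.A

set_option autoImplicit false

namespace Pool.Agent.H.MP_0e1b7e_an

open Complex Finset
open scoped InnerProductSpace ComplexConjugate
open Pool.Agent.H.MP_7a60ac_an

variable {H : Type} [NormedAddCommGroup H] [InnerProductSpace ℂ H] [FiniteDimensional ℂ H]
  {V : Type} [AddCommGroup V] [Module ℂ V]

theorem ginv (Λ : V →ₗ[ℂ] H) :
    ∃ R : H →ₗ[ℂ] V, (∀ h, ‖Λ (R h)‖ ≤ ‖h‖) ∧ ∀ y, Λ (R (Λ y)) = Λ y := by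
  obtain ⟨g, hg⟩ := Λ.rangeRestrict.exists_rightInverse_of_surjective Λ.range_rangeRestrict
  have e : ∀ h, Λ (g ((LinearMap.range Λ).orthogonalProjectionOnto h)) =
      (LinearMap.range Λ).starProjection h :=
    fun h => congrArg Subtype.val (LinearMap.congr_fun hg _)
  refine ⟨g ∘ₗ (LinearMap.range Λ).orthogonalProjectionOnto.toLinearMap, fun h => ?_, fun y => ?_⟩
  · exact (congrArg norm (e h)).trans_le (Submodule.norm_starProjection_apply_le _ h)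
  · exact (e _).trans (Submodule.starProjection_eq_self_iff.2 ⟨y, rfl⟩)

omit [FiniteDimensional ℂ H] in
theorem douglas {H' : Type} [NormedAddCommGroup H'] [InnerProductSpace ℂ H'] {Λ : V →ₗ[ℂ] H}
    {R : H →ₗ[ℂ] V} (h : ∀ y, Λ (R (Λ y)) = Λ y) {B : V →ₗ[ℂ] H'} (hB : ∀ y, ‖B y‖ ≤ ‖Λ y‖)
    (y : V) : B (R (Λ y)) = B y := by
  have := hB (R (Λ y) - y)
  rwa [map_sub Λ, h, sub_self, norm_zero, norm_le_zero_iff, map_sub, sub_eq_zero] at this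

theorem defect {T : H →ₗ[ℂ] H} (hT : ∀ x, ‖T x‖ ≤ ‖x‖) :
    ∃ D : H →ₗ[ℂ] H, (∀ v y, ⟪D v, D y⟫_ℂ = ⟪v, y⟫_ℂ - ⟪T v, T y⟫_ℂ) ∧
      ∀ v, ‖D v‖ ^ 2 = ‖v‖ ^ 2 - ‖T v‖ ^ 2 := by
  have := FiniteDimensional.complete ℂ H
  obtain ⟨A, hA⟩ : ∃ A : H →L[ℂ] H, A = LinearMap.toContinuousLinearMap T := ⟨_, rfl⟩
  have e : ∀ v y, ⟪v, (1 - star A * A) y⟫_ℂ = ⟪v, y⟫_ℂ - ⟪T v, T y⟫_ℂ := fun v y => by
    simp [ContinuousLinearMap.star_eq_adjoint,
      ContinuousLinearMap.adjoint_inner_right, hA]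
  have p : 0 ≤ 1 - star A * A := by
    rw [ContinuousLinearMap.nonneg_iff_isPositive, ContinuousLinearMap.isPositive_iff_complex]
    intro x
    rw [← inner_conj_symm, e, inner_self_eq_norm_sq_to_K, inner_self_eq_norm_sq_to_K]
    have := pow_le_pow_left₀ (norm_nonneg _) (hT x) 2
    simp [← ofReal_pow, ← ofReal_sub, this]
  obtain ⟨B, hB⟩ := CStarAlgebra.nonneg_iff_eq_star_mul_self.1 p
  have e2 : ∀ v y, ⟪B v, B y⟫_ℂ = ⟪v, y⟫_ℂ - ⟪T v, T y⟫_ℂ := fun v y => by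
    rw [← e, hB]
    simp [ContinuousLinearMap.star_eq_adjoint, ContinuousLinearMap.adjoint_inner_right]
  refine ⟨B.toLinearMap, e2, fun v => ?_⟩
  have := congrArg re (e2 v v)
  simp only [inner_self_eq_norm_sq_to_K] at this
  simpa [← ofReal_pow] using this

theorem ps (T : V →ₗ[ℂ] V) (k : ℕ) (v : V) : (T ^ (k + 1)) v = T ((T ^ k) v) := by
  rw [pow_succ']; rfl

variable {J : ℕ} {c : ℕ → ℂ}

theorem gram (h : TP J c) (y : ℕ → H) :
    0 ≤ (∑ j ∈ range (J + 1), ∑ i ∈ range (j + 1), c (j - i) * ⟪y j, y i⟫_ℂ).re := by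
  have b := stdOrthonormalBasis ℂ H
  rw [sum_congr rfl fun j _ => sum_congr rfl fun i _ => by
    rw [← b.sum_inner_mul_inner (y j) (y i), mul_sum], sum_congr rfl fun j _ => sum_comm, sum_comm,
    re_sum]
  refine sum_nonneg fun k _ => (h fun i => ⟪b k, y i⟫_ℂ).trans_eq ?_
  simp only [inner_conj_symm]
  exact congrArg re (sum_congr rfl fun j _ => sum_congr rfl fun i _ => by ring)

theorem tri (a : ℕ → ℂ) (J : ℕ) : ∑ j ∈ range (J + 1), ∑ i ∈ range (j + 1), a (j - i) =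
    ∑ l ∈ range (J + 1), (J + 1 - l) * a l := by
  induction J with
  | zero => simp
  | succ J ih =>
    rw [sum_range_succ, ih, sum_flip, sum_range_succ (fun l : ℕ => ((J + 1 : ℕ) + 1 - l) * a l),
      sum_range_succ a, ← add_assoc, ← sum_add_distrib]
    push_cast
    exact congrArg₂ _ (sum_congr rfl fun _ _ => by ring) (by ring)

theorem vn {S : H →ₗ[ℂ] H} (hS : ∀ x, ‖S x‖ ≤ ‖x‖) (h : TP J c) (x : H) :
    0 ≤ (∑ l ∈ range (J + 1), (J + 1 - l) * (c l * ⟪x, (S ^ l) x⟫_ℂ)).re := by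
  obtain ⟨D, hD, -⟩ := defect hS
  let Q : ℕ → ℂ := fun N => ∑ j ∈ range (J + 1), ∑ i ∈ range (j + 1),
    c (j - i) * ⟪(S ^ (N - j)) x, (S ^ (N - j + (j - i))) x⟫_ℂ
  have hQ : ∀ N, (Q N).re ≤ (Q 0).re := fun N => by
    induction N with
    | zero => rfl
    | succ N ih =>
      refine le_trans (sub_nonneg.1 ?_) ih
      refine (gram h fun i => if i ≤ N then D ((S ^ (N - i)) x) else 0).trans_eq ?_
      simp only [Q, ← sub_re, ← sum_sub_distrib, ← mul_sub]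
      refine congrArg re (sum_congr rfl fun j _ => sum_congr rfl fun i hi => ?_)
      have := mem_range.1 hi
      by_cases hj : j ≤ N
      · rw [if_pos hj, if_pos (by omega), hD, show N + 1 - j = N - j + 1 by omega,
          show N - j + 1 + (j - i) = N - i + 1 by omega, show N - j + (j - i) = N - i by omega,
          pow_succ', pow_succ']; rfl
      · rw [if_neg hj, show N + 1 - j = N - j by omega]; simp
  rw [← tri]
  refine ((gram h fun i => (S ^ (J - i)) x).trans_eq ?_).trans ((hQ J).trans_eq (by simp [Q]))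
  refine congrArg re (sum_congr rfl fun j hj => sum_congr rfl fun i hi => ?_)
  rw [show J - j + (j - i) = J - i by have := mem_range.1 hi; have := mem_range.1 hj; omega]

/-- pairing of two linear maps -/
noncomputable def pr (A B : V →ₗ[ℂ] H) : V →ₗ[ℂ] WithLp 2 (H × H) :=
  (WithLp.linearEquiv 2 ℂ (H × H)).symm.toLinearMap ∘ₗ A.prod B

omit [FiniteDimensional ℂ H] in
theorem pr_norm (A B : V →ₗ[ℂ] H) (v : V) : ‖pr A B v‖ ^ 2 = ‖A v‖ ^ 2 + ‖B v‖ ^ 2 :=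
  WithLp.prod_norm_sq_eq_of_L2 _

theorem dil0 {T S : H →ₗ[ℂ] H} {e : H} {m : ℕ} (hT : ∀ x, ‖T x‖ ≤ ‖x‖) (hS : ∀ x, ‖S x‖ ≤ ‖x‖)
    (hc : Commute T S) (h1 : ∀ i ≤ m, ‖(T ^ i) e‖ = ‖e‖)
    (h2 : ∀ i j, 0 < i → ⟪e, (T ^ i) ((S ^ j) e)⟫_ℂ = 0) (h : TP J c) :
    TP m fun l => ∑ j ∈ range (J + 1), (J + 1 - j) * (c j * ⟪(T ^ l) e, (S ^ j) e⟫_ℂ) := by
  obtain ⟨D, hD, hD2⟩ := defect hT
  have iso : ∀ k a y, a + k ≤ m → ⟪(T ^ (a + k)) e, (T ^ k) y⟫_ℂ = ⟪(T ^ a) e, y⟫_ℂ := by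
    intro k a y hk
    induction k with
    | zero => simp
    | succ k ih =>
      have d := hD2 ((T ^ (a + k)) e)
      rw [← ps, h1 _ (by omega), h1 _ (by omega), sub_self,
        sq_eq_zero_iff, norm_eq_zero] at d
      have := hD ((T ^ (a + k)) e) ((T ^ k) y)
      rw [d, inner_zero_left, eq_comm, sub_eq_zero] at this
      rw [← ih (by omega), this, ← add_assoc, pow_succ', pow_succ']; rfl
  intro a
  refine (vn hS h (∑ l ∈ range (m + 1), a l • (T ^ l) e)).trans_eq (congrArg re ?_)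
  simp only [map_sum, sum_inner, inner_sum, mul_sum, sum_mul, map_smul, inner_smul_left,
    inner_smul_right]
  rw [sum_congr rfl fun j _ => sum_comm, sum_comm]
  refine sum_congr rfl fun l hl => ?_
  rw [sum_comm, ← sum_subset (range_subset_range.2 (mem_range.1 hl))]
  · refine sum_congr rfl fun i hi => sum_congr rfl fun j _ => ?_
    have := iso i (l - i) ((S ^ j) e) (by have := mem_range.1 hl; have := mem_range.1 hi; omega)
    rw [Nat.sub_add_cancel (Nat.lt_succ_iff.1 (mem_range.1 hi)), ← Module.End.mul_apply,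
      (hc.pow_pow i j).eq, Module.End.mul_apply] at this
    rw [this]; ring
  · intro i hi hil
    refine sum_eq_zero fun j _ => ?_
    obtain ⟨k, rfl⟩ := Nat.exists_eq_add_of_lt (show l < i by simpa using hil)
    have := iso l 0 ((T ^ (k + 1)) ((S ^ j) e)) (by have := mem_range.1 hl; omega)
    rw [zero_add, pow_zero, Module.End.one_apply, h2 _ _ k.succ_pos, ← Module.End.mul_apply,
      ← pow_add, ← Module.End.mul_apply, (hc.pow_pow _ j).eq, Module.End.mul_apply,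
      ← add_assoc] at this
    simp [this]

theorem dil (N : ℕ) : ∀ (H : Type) [NormedAddCommGroup H] [InnerProductSpace ℂ H]
    [FiniteDimensional ℂ H] (T S : H →ₗ[ℂ] H) (e : H) (m : ℕ), (∀ x, ‖T x‖ ≤ ‖x‖) →
    (∀ x, ‖S x‖ ≤ ‖x‖) → Commute T S → (∀ i ≤ m, ‖(T ^ i) e‖ = ‖e‖) →
    (∀ i j, 0 < i → ⟪e, (T ^ i) ((S ^ j) e)⟫_ℂ = 0) → ∃ φ : ℕ → ℕ → ℂ,
    (∀ l ≤ m, ∀ j, φ l j = ⟪(T ^ l) e, (S ^ j) e⟫_ℂ) ∧ ∀ J c, TP J c →
    TP (m + N) fun l => ∑ j ∈ range (J + 1), (J + 1 - j) * (c j * φ l j) := by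
  induction N with
  | zero => exact fun H _ _ _ T S e m hT hS hc h1 h2 =>
      ⟨_, fun _ _ _ => rfl, fun J c h => dil0 hT hS hc h1 h2 h⟩
  | succ N ih =>
    intro H _ _ _ T S e m hT hS hc h1 h2
    obtain ⟨D, -, hD⟩ := defect hT
    obtain ⟨E, -, hE⟩ := defect hS
    obtain ⟨R, hR, hR2⟩ := ginv (pr (E ∘ₗ T) D)
    have cm : ∀ y, T (S y) = S (T y) := fun y => LinearMap.congr_fun hc.eq y
    have hB : ∀ y, ‖(D ∘ₗ S) y‖ ≤ ‖pr (E ∘ₗ T) D y‖ := fun y => by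
      refine (sq_le_sq₀ (norm_nonneg _) (norm_nonneg _)).1 ?_
      have := pow_le_pow_left₀ (norm_nonneg _) (hS y) 2
      simp only [pr_norm, LinearMap.comp_apply, hD, hE, cm]; linarith
    let p : WithLp 2 (H × H) →ₗ[ℂ] H := WithLp.fstₗ 2 ℂ H H
    let q : WithLp 2 (H × H) →ₗ[ℂ] H := WithLp.sndₗ 2 ℂ H H
    let T' := pr (T ∘ₗ p) (D ∘ₗ p)
    let S' := pr (S ∘ₗ p) (D ∘ₗ S ∘ₗ R ∘ₗ pr (E ∘ₗ p) q)
    let ι : H →ₗ[ℂ] WithLp 2 (H × H) := pr LinearMap.id 0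
    have n0 : ∀ x : WithLp 2 (H × H), ‖x‖ ^ 2 = ‖p x‖ ^ 2 + ‖q x‖ ^ 2 :=
      WithLp.prod_norm_sq_eq_of_L2
    have nT : ∀ x, ‖T' x‖ = ‖p x‖ := fun x => by
      refine (sq_eq_sq₀ (norm_nonneg _) (norm_nonneg _)).1 ?_
      simp only [T', pr_norm, LinearMap.comp_apply, hD]; ring
    have nι : ∀ x, ‖ι x‖ = ‖x‖ := fun x => by
      refine (sq_eq_sq₀ (norm_nonneg _) (norm_nonneg _)).1 ?_
      simp [ι, pr_norm]
    have pT : ∀ i x, p ((T' ^ i) x) = (T ^ i) (p x) := fun i x => by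
      induction i with
      | zero => rfl
      | succ i ih => rw [ps, ps, ← ih]; rfl
    have pS : ∀ i x, p ((S' ^ i) x) = (S ^ i) (p x) := fun i x => by
      induction i with
      | zero => rfl
      | succ i ih => rw [ps, ps, ← ih]; rfl
    have iι : ∀ x y, ⟪ι x, y⟫_ℂ = ⟪x, p y⟫_ℂ := fun x y => by
      rw [WithLp.prod_inner_apply]
      exact (congrArg _ (inner_zero_left _)).trans (add_zero _)
    have Tι : ∀ i ≤ m, (T' ^ i) (ι e) = ι ((T ^ i) e) := fun i hi => by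
      induction i with
      | zero => rfl
      | succ i ih =>
        have d := hD ((T ^ i) e)
        rw [← ps, h1 _ (by omega), h1 _ (by omega), sub_self, sq_eq_zero_iff, norm_eq_zero] at d
        rw [ps, ps, ih (by omega)]
        exact congrArg (fun t => WithLp.toLp 2 (T ((T ^ i) e), t)) d
    refine (ih _ T' S' (ι e) (m + 1) (fun x => ?_) (fun x => ?_) ?_ (fun i hi => ?_)
      (fun i j hi => ?_)).elim fun φ ⟨hφ, h⟩ => ?_
    rotate_right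
    · refine ⟨φ, fun l hl j => ?_, by rwa [add_right_comm] at h⟩
      rw [hφ l (by omega), Tι l hl, iι, pS]; rfl
    · rw [nT]
      refine (sq_le_sq₀ (norm_nonneg _) (norm_nonneg _)).1 ?_
      rw [n0]; nlinarith [sq_nonneg ‖q x‖]
    · refine (sq_le_sq₀ (norm_nonneg _) (norm_nonneg _)).1 ?_
      have := pow_le_pow_left₀ (norm_nonneg _) ((hB _).trans (hR (pr (E ∘ₗ p) q x))) 2
      simp only [S', pr_norm, LinearMap.comp_apply, hE, n0 x] at this ⊢; linarith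
    · refine LinearMap.ext fun x => ?_
      exact congrArg (WithLp.toLp 2) (Prod.ext (cm (p x)) (douglas hR2 hB (p x)).symm)
    · rcases i with _ | i
      · rfl
      · rw [ps, nT, pT, nι]; exact h1 i (by omega)
    · rw [iι, pT, pS]; exact h2 i j hi

theorem dil2 (N m : ℕ) (Λ : V →ₗ[ℂ] H) {W Ω : V →ₗ[ℂ] V} (e : V) (hW : ∀ y, ‖Λ (W y)‖ ≤ ‖Λ y‖)
    (hΩ : ∀ y, ‖Λ (Ω y)‖ ≤ ‖Λ y‖) (hc : Commute W Ω) (h1 : ∀ i ≤ m, ‖Λ ((W ^ i) e)‖ = ‖Λ e‖)
    (h2 : ∀ i j, 0 < i → ⟪Λ e, Λ ((W ^ i) ((Ω ^ j) e))⟫_ℂ = 0) : ∃ φ : ℕ → ℕ → ℂ,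
    (∀ l ≤ m, ∀ j, φ l j = ⟪Λ ((W ^ l) e), Λ ((Ω ^ j) e)⟫_ℂ) ∧ ∀ J c, TP J c →
    TP (m + N) fun l => ∑ j ∈ range (J + 1), (J + 1 - j) * (c j * φ l j) := by
  obtain ⟨R, hR, hR2⟩ := ginv Λ
  have k : ∀ {A : V →ₗ[ℂ] V}, (∀ y, ‖Λ (A y)‖ ≤ ‖Λ y‖) → ∀ i y,
      ((Λ ∘ₗ A ∘ₗ R) ^ i) (Λ y) = Λ ((A ^ i) y) := fun {A} hA i y => by
    induction i with
    | zero => rfl
    | succ i ih => rw [ps, ps, ih]; exact douglas hR2 (B := Λ ∘ₗ A) hA _
  have := dil N H (Λ ∘ₗ W ∘ₗ R) (Λ ∘ₗ Ω ∘ₗ R) (Λ e) m (fun x => (hW _).trans (hR x))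
    (fun x => (hΩ _).trans (hR x)) (LinearMap.ext fun x => ?_) ?_ ?_
  · simpa only [k hW, k hΩ] using this
  · exact (douglas hR2 (B := Λ ∘ₗ W) hW _).trans ((congrArg Λ (LinearMap.congr_fun hc.eq _)).trans
      (douglas hR2 (B := Λ ∘ₗ Ω) hΩ _).symm)
  · simpa only [k hW] using h1
  · simpa only [k hW, k hΩ] using h2

end Pool.Agent.H.MP_0e1b7e_an
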