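import Mathlib
import Pool.Agent.H.MP_0e1b7e_an.C
import Pool.Agent.H.MP_0e1b7e_an.D

set_option autoImplicit false

namespace Pool.Agent.H.MP_0e1b7e_an

open Complex Metric Finset PowerSeries Filter Topology
open scoped ComplexConjugate Real InnerProductSpace
open Pool.Agent.H.MP_7a60ac_an

variable {δ : ℝ}

theorem sec2 (h0 : 0 < δ) (h1 : δ ≤ 1) {G : ℂ → ℂ} (hG : DifferentiableOn ℂ G (ball 0 1))
    (G0 : G 0 = 1) (hp : ∀ σ : ℝ, |σ| ≤ (1 - δ) * (π / 2) → ∀ z ∈ ball (0 : ℂ) 1,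
      0 ≤ (exp (σ * I) * G z).re) (m : ℕ) : ‖coeff m (KX 1 1 * ts G)‖ ≤ cc (1 + δ) m := by
  have η0 : 0 ≤ (1 - δ) * (π / 2) := mul_nonneg (by linarith) (by positivity)
  have p0 : ∀ z ∈ ball (0 : ℂ) 1, 0 ≤ (G z).re := by simpa using hp 0 (by simpa using η0)
  have p1 : ∀ z ∈ ball (0 : ℂ) 1, 0 < (G z).re := fun z hz => (p0 z hz).lt_of_ne' fun e => by
    have := Complex.norm_eqOn_of_isPreconnected_of_isMaxOn
      (convex_ball (0 : ℂ) 1).isPreconnected isOpen_ball hG.neg.cexp hz (fun y hy => by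
        simpa [norm_exp, e] using p0 y hy) (mem_ball_self one_pos)
    simp [norm_exp, e, G0] at this
  obtain ⟨k1, k2, k3⟩ := log_facts hG p1
  refine (sec h0 k1 (by simp [G0]) (fun z hz => ?_) norm_one m).elim fun c ⟨hc, h⟩ => ?_
  swap
  · rw [← k2, co_eq h le_rfl]; exact bck h0 m c hc
  · have a := abs_le.1 (k3 z hz)
    have q : ∀ σ : ℝ, |σ| ≤ (1 - δ) * (π / 2) → 0 ≤ Real.cos (σ + (log (G z)).im) := fun σ hσ => by
      have := hp σ hσ z hz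
      rw [← exp_log (x := G z) fun e => by simpa [e] using p1 z hz, ← Complex.exp_add, exp_re] at this
      simpa using nonneg_of_mul_nonneg_right this (Real.exp_pos _)
    have := mul_pos h0 Real.pi_pos
    have := Real.pi_pos
    rw [abs_le]
    constructor <;> by_contra hn
    · have := q (-((1 - δ) * (π / 2))) (by rw [abs_neg, abs_of_nonneg η0])
      rw [← Real.cos_neg] at this
      exact this.not_gt (Real.cos_neg_of_pi_div_two_lt_of_lt (by linarith) (by linarith))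
    · exact (q _ (abs_of_nonneg η0).le).not_gt
        (Real.cos_neg_of_pi_div_two_lt_of_lt (by linarith) (by linarith))

theorem tp_cc (h0 : 0 < δ) {σ : ℝ} (hσ : |σ| ≤ (1 - δ) * (π / 2)) (J : ℕ) :
    TP J fun j => exp (σ * I) * cc δ j := by
  obtain ⟨k1, k2, k3⟩ := log_facts (k_diff norm_one) fun z hz => (k_re norm_one hz).2
  have e : ∀ j, co (fun z => exp (σ * I) * exp (δ * log ((1 + 1 * z) / (1 - 1 * z)))) j =
      exp (σ * I) * cc δ j := fun j => by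
    have p := isPow_exp (k1.analyticAt (ball_mem_nhds 0 one_pos)) (by simp) 1 δ j
    simp only [one_mul _, mul_one] at p k2
    have t := ts_k norm_one
    simp only [one_mul] at t
    rw [k2, t] at p
    have := p.coeff_eq (by simp [KX]) (kx_pow 1 δ j)
    rw [kx_co _ (fun j => (cc δ j : ℂ)) le_rfl, one_pow, mul_one] at this
    have h := congrArg (coeff j) (ts_cmul (f := fun z => exp (δ * log ((1 + z) / (1 - z))))
      (exp (σ * I)))
    rw [coeff_C_mul, this] at h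
    simpa [ts] using h
  simp only [← e]
  refine tp_one fun r r0 r1 => tp_r ((k1.const_mul _).cexp.const_mul _) (fun z hz => ?_) r0 r1 J
  rw [← Complex.exp_add]
  refine re_exp_nonneg ((abs_add_le _ _).trans ?_)
  rw [im_ofReal_mul, im_ofReal_mul, abs_mul δ, abs_of_pos h0, I_im, mul_one]
  linarith [mul_le_mul_of_nonneg_left (k3 z hz) h0.le]

theorem co_poly (b : ℕ → ℂ) {N k : ℕ} (hk : k < N) :
    co (fun z => ∑ l ∈ range N, b l * z ^ l) k = b k := by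
  have : (k.factorial : ℂ) ≠ 0 := by exact_mod_cast k.factorial_ne_zero
  rw [co, iteratedDeriv_fun_sum fun _ _ => by fun_prop]
  simp only [iteratedDeriv_const_mul_field, iteratedDeriv_fun_pow_zero]
  simp [hk, this]

variable {H : Type} [NormedAddCommGroup H] [InnerProductSpace ℂ H] [FiniteDimensional ℂ H]
  {V : Type} [AddCommGroup V] [Module ℂ V]

theorem main (h0 : 0 < δ) (hδ : δ ≤ 1) (m : ℕ) (Λ : V →ₗ[ℂ] H) {W Ω : V →ₗ[ℂ] V} (e : V)
    (hW : ∀ y, ‖Λ (W y)‖ ≤ ‖Λ y‖) (hΩ : ∀ y, ‖Λ (Ω y)‖ ≤ ‖Λ y‖) (hc : Commute W Ω)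
    (h1 : ∀ i ≤ m, ‖Λ ((W ^ i) e)‖ = ‖Λ e‖)
    (h2 : ∀ i j, 0 < i → ⟪Λ e, Λ ((W ^ i) ((Ω ^ j) e))⟫_ℂ = 0)
    (h3 : ∀ l ≤ m, ∀ j, l < j → ⟪Λ ((W ^ l) e), Λ ((Ω ^ j) e)⟫_ℂ = 0) :
    ‖∑ l ∈ range (m + 1), coeff (m - l) (KX 1 1) * ∑ j ∈ range (m + 1),
      cc δ j * ⟪Λ ((W ^ l) e), Λ ((Ω ^ j) e)⟫_ℂ‖ ≤ cc (1 + δ) m * ‖Λ e‖ ^ 2 := by
  rcases (norm_nonneg (Λ e)).eq_or_lt with E0 | E0
  · rw [sum_eq_zero fun l hl => by
      simp [norm_eq_zero.1 ((h1 l (Nat.lt_succ_iff.1 (mem_range.1 hl))).trans E0.symm)]]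
    simp [← E0]
  let Ψ : ℝ → ℝ := fun τ => ‖∑ l ∈ range (m + 1), coeff (m - l) (KX 1 1) * ((1 - l * τ) *
    ∑ j ∈ range (m + 1), (1 - j * τ) * (cc δ j * ⟪Λ ((W ^ l) e), Λ ((Ω ^ j) e)⟫_ℂ))‖
  have c : Continuous Ψ := by fun_prop
  have t := (c.tendsto 0).comp
    (tendsto_one_div_add_atTop_nhds_zero_nat.comp (tendsto_add_atTop_nat m))
  refine le_trans (by simp [Ψ]) (le_of_tendsto' t fun N => ?_)
  obtain ⟨φ, hφ, h⟩ := dil2 N m Λ e hW hΩ hc h1 h2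
  obtain ⟨M, hM⟩ : ∃ M, M = m + N := ⟨_, rfl⟩
  obtain ⟨κ, hκ⟩ : ∃ κ : ℝ, κ = ((M + 1) ^ 2 * ‖Λ e‖ ^ 2)⁻¹ := ⟨_, rfl⟩
  have κ0 : 0 < κ := by rw [hκ]; positivity
  have M0 : (M : ℂ) + 1 ≠ 0 := by exact_mod_cast M.succ_ne_zero
  have e0 : (‖Λ e‖ : ℂ) ≠ 0 := by exact_mod_cast E0.ne'
  obtain ⟨b, hb⟩ : ∃ b : ℕ → ℂ, b = fun l : ℕ => κ * ((M + 1 - l) *
    ∑ j ∈ range (M + 1), (M + 1 - j) * (cc δ j * φ l j)) := ⟨_, rfl⟩
  have bl : ∀ l ≤ m, (‖Λ e‖ ^ 2 : ℝ) * b l = (1 - l * (1 / (M + 1) : ℝ)) * ∑ j ∈ range (m + 1),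
      (1 - j * (1 / (M + 1) : ℝ)) * (cc δ j * ⟪Λ ((W ^ l) e), Λ ((Ω ^ j) e)⟫_ℂ) := fun l hl => by
    simp only [hb, hφ l hl]
    rw [← sum_subset (range_subset_range.2 (show m + 1 ≤ M + 1 by omega)) fun j _ hj => by
      simp [h3 l hl j (by simp at hj; omega)]]
    simp only [mul_sum, hκ]
    refine sum_congr rfl fun j _ => ?_
    push_cast; field_simp
  have := sec2 h0 hδ (G := fun z => ∑ l ∈ range (M + 1), b l * z ^ l) (by fun_prop) ?_ ?_ m
  · refine le_trans (le_of_eq ?_) (mul_le_mul_of_nonneg_right this (sq_nonneg _))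
    rw [mul_comm (KX 1 1), coeff_mul, Nat.sum_antidiagonal_eq_sum_range_succ_mk,
      ← abs_of_nonneg (sq_nonneg ‖Λ e‖), ← Real.norm_eq_abs, ← norm_real, ← norm_mul, sum_mul]
    refine congrArg norm (sum_congr rfl fun l hl => ?_)
    have hl := Nat.lt_succ_iff.1 (mem_range.1 hl)
    simp only [Function.comp]
    rw [add_comm N m, ← hM, ← bl l hl, ts, coeff_mk, co_poly _ (by omega)]; ring
  · have := bl 0 m.zero_le
    rw [sum_range_succ', sum_eq_zero fun j _ => by rw [h3 0 m.zero_le _ j.succ_pos]; simp] at this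
    simp [cc, e0] at this
    simp [sum_range_succ', this]
  · intro σ hσ z hz
    have := vn (S := z • LinearMap.id) (fun x => by
      simpa using mul_le_of_le_one_left (norm_nonneg x) (mem_ball_zero_iff.1 hz).le)
      (h M _ (tp_cc h0 hσ M)) (1 : ℂ)
    rw [← hM] at this
    refine (mul_nonneg κ0.le this).trans_eq ?_
    simp only [← re_ofReal_mul, hb, mul_sum, sum_mul]
    refine congrArg re (sum_congr rfl fun l _ => sum_congr rfl fun j _ => ?_)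
    simp [smul_pow]; ring

end Pool.Agent.H.MP_0e1b7e_an
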