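import Mathlib
import Pool.Agent.H.MP_0e1b7e_an.E

set_option autoImplicit false

namespace Pool.Agent.H.MP_0e1b7e_an

open Complex Finset PowerSeries
open scoped ComplexConjugate InnerProductSpace

variable {F : ℝ⟦X⟧} {x : ℂ} {m n : ℕ}

theorem pow_nn (hF : ∀ k, 0 ≤ coeff k F) (i : ℕ) : ∀ j, 0 ≤ coeff j (F ^ i) := by
  induction i with
  | zero => intro j; rw [pow_zero, coeff_one]; split_ifs <;> norm_num
  | succ i ih =>
    intro j; rw [pow_succ, coeff_mul]; exact sum_nonneg fun p _ => mul_nonneg (ih _) (hF _)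

/-- rotated series -/
noncomputable def FX (F : ℝ⟦X⟧) (x : ℂ) : ℂ⟦X⟧ := rescale x (PowerSeries.map ofRealHom F)

theorem FX_co (F : ℝ⟦X⟧) (x : ℂ) (i j : ℕ) : coeff j (FX F x ^ i) = x ^ j * coeff j (F ^ i) := by
  rw [FX, ← map_pow, ← map_pow, coeff_rescale, coeff_map]; rfl

/-- elements with admissible support -/
def SS (hF : ∀ k, 0 ≤ coeff k F) : Subalgebra ℂ (Polynomial ℂ⟦X⟧) where
  carrier := {y | ∀ i j, coeff j (F ^ i) = 0 → coeff j (y.coeff i) = 0}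
  add_mem' := fun ha hb i j h => by simp [ha i j h, hb i j h]
  mul_mem' := fun {a b} ha hb i j h => by
    rw [Polynomial.coeff_mul, map_sum]
    refine sum_eq_zero fun p hp => ?_
    rw [← mem_antidiagonal.1 hp, pow_add, coeff_mul, sum_eq_zero_iff_of_nonneg fun q _ =>
      mul_nonneg (pow_nn hF _ _) (pow_nn hF _ _)] at h
    rw [coeff_mul]
    exact sum_eq_zero fun q hq => (mul_eq_zero.1 (h q hq)).elim (fun e => by simp [ha _ _ e])
      fun e => by simp [hb _ _ e]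
  algebraMap_mem' := fun r i j h => by
    rcases i with _ | i
    · have : j ≠ 0 := by rintro rfl; simp at h
      simp [coeff_C, this]
    · simp

/-- the shift -/
noncomputable def WX (F : ℝ⟦X⟧) (x : ℂ) : Polynomial ℂ⟦X⟧ := Polynomial.monomial 1 (FX F x)

theorem WX_co (F : ℝ⟦X⟧) (x : ℂ) (l i : ℕ) :
    (WX F x ^ l).coeff i = if l = i then FX F x ^ l else 0 := by
  simp [WX, Polynomial.monomial_pow, Polynomial.coeff_monomial]

theorem WX_mem (hF : ∀ k, 0 ≤ coeff k F) (x : ℂ) : WX F x ∈ SS hF := fun i j h => by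
  rw [← pow_one (WX F x), WX_co]
  split_ifs with e
  · rw [FX_co, e, h]; simp
  · rfl

/-- weighted coordinates -/
noncomputable def La (F : ℝ⟦X⟧) (m n : ℕ) :
    Polynomial ℂ⟦X⟧ →ₗ[ℂ] EuclideanSpace ℂ (Fin (m + 1) × Fin (n + 1)) where
  toFun y := WithLp.toLp 2 fun p => (√(coeff (n - p.2) (F ^ (m - p.1)) / coeff p.2 (F ^ (p.1 : ℕ))) : ℝ)
    * coeff p.2 (y.coeff p.1)
  map_add' a b := by ext p; simp [mul_add]
  map_smul' r a := by ext p; simp [mul_left_comm]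

theorem La_inner (hF : ∀ k, 0 ≤ coeff k F) (y z : Polynomial ℂ⟦X⟧) :
    ⟪La F m n y, La F m n z⟫_ℂ = ∑ i ∈ range (m + 1), ∑ j ∈ range (n + 1),
      (coeff (n - j) (F ^ (m - i)) / coeff j (F ^ i) : ℝ) *
        (conj (coeff j (y.coeff i)) * coeff j (z.coeff i)) := by
  rw [PiLp.inner_apply, Fintype.sum_prod_type, sum_range]
  refine sum_congr rfl fun i _ => ?_
  rw [sum_range]
  refine sum_congr rfl fun j _ => ?_
  rw [← Real.mul_self_sqrt (div_nonneg (pow_nn hF _ _) (pow_nn hF _ _)), ofReal_mul]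
  simp only [La, LinearMap.coe_mk, AddHom.coe_mk, RCLike.inner_apply, map_mul, conj_ofReal]; ring

theorem La_norm (hF : ∀ k, 0 ≤ coeff k F) (y : Polynomial ℂ⟦X⟧) :
    ‖La F m n y‖ ^ 2 = ∑ i ∈ range (m + 1), coeff n (PowerSeries.mk (fun j =>
      ‖coeff j (y.coeff i)‖ ^ 2 / coeff j (F ^ i)) * F ^ (m - i)) := by
  refine ofReal_injective ?_
  have := La_inner (m := m) (n := n) hF y y
  rw [inner_self_eq_norm_sq_to_K] at this
  simp only [coeff_mul, Nat.sum_antidiagonal_eq_sum_range_succ_mk, coeff_mk]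
  push_cast at this ⊢
  refine this.trans (sum_congr rfl fun i _ => sum_congr rfl fun j _ => ?_)
  rw [conj_mul']; ring

theorem La_zero {y : Polynomial ℂ⟦X⟧} (h : Polynomial.C X ^ (n + 1) ∣ y) : La F m n y = 0 := by
  obtain ⟨z, rfl⟩ := h
  ext p
  simp [La, ← map_pow, coeff_X_pow_mul', (Nat.lt_succ_iff.1 p.2.2).not_gt]

theorem La_W (hF : ∀ k, 0 ≤ coeff k F) (hx : ‖x‖ = 1) {y : Polynomial ℂ⟦X⟧} (hy : y ∈ SS hF) :
    ‖La F m n (WX F x * y)‖ ≤ ‖La F m n y‖ := by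
  refine (sq_le_sq₀ (norm_nonneg _) (norm_nonneg _)).1 ?_
  have nn : ∀ i j, 0 ≤ ‖coeff j (y.coeff i)‖ ^ 2 / coeff j (F ^ i) := fun i j =>
    div_nonneg (sq_nonneg _) (pow_nn hF _ _)
  rw [La_norm hF, La_norm hF, sum_range_succ', sum_range_succ]
  refine add_le_add (sum_le_sum fun i hi => ?_) ?_
  · rw [show m - i = m - (i + 1) + 1 by have := mem_range.1 hi; omega, pow_succ' F (m - (i + 1)),
      ← mul_assoc, coeff_mul, coeff_mul]
    refine sum_le_sum fun p _ => mul_le_mul_of_nonneg_right ?_ (pow_nn hF _ _)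
    rw [coeff_mk, WX, Polynomial.coeff_monomial_mul, mul_comm (FX F x), pow_succ F, coeff_mul, coeff_mul,
      coeff_mul]
    simp only [coeff_mk]
    refine div_le_of_le_mul₀ (sum_nonneg fun q _ => mul_nonneg (pow_nn hF _ _) (hF _))
      (sum_nonneg fun q _ => mul_nonneg (nn _ _) (hF _)) ?_
    refine (pow_le_pow_left₀ (norm_nonneg _) (norm_sum_le _ _) 2).trans
      (sum_sq_le_sum_mul_sum_of_sq_le_mul _ (fun q _ => mul_nonneg (nn _ _) (hF _))
      (fun q _ => mul_nonneg (pow_nn hF _ _) (hF _)) fun q _ => le_of_eq ?_)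
    rw [← pow_one (FX F x), FX_co]
    by_cases h : coeff q.1 (F ^ i) = 0
    · simp [h, hy _ _ h]
    · simp [hx, mul_pow]; field_simp
  · rw [coeff_mul, coeff_mul, sum_eq_zero fun p _ => by simp [WX]]
    exact sum_nonneg fun p _ => mul_nonneg (by simpa using nn _ _) (pow_nn hF _ _)

theorem La_pow (hF : ∀ k, 0 ≤ coeff k F) (hx : ‖x‖ = 1) {y : Polynomial ℂ⟦X⟧} (hy : y ∈ SS hF)
    {l : ℕ} (hl : l ≤ m) : x ^ n * ⟪La F m n (WX F x ^ l), La F m n y⟫_ℂ =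
      coeff n (y.coeff l * FX F x ^ (m - l)) := by
  rw [La_inner hF, sum_eq_single l (fun i _ hi => by simp [WX_co, hi.symm]) (by simp; omega),
    coeff_mul, Nat.sum_antidiagonal_eq_sum_range_succ_mk, mul_sum]
  refine sum_congr rfl fun j hj => ?_
  obtain ⟨k, rfl⟩ := Nat.exists_eq_add_of_le (Nat.lt_succ_iff.1 (mem_range.1 hj))
  have e : x ^ j * conj x ^ j = 1 := by rw [← mul_pow, mul_conj', hx]; simp
  by_cases h : coeff j (F ^ l) = 0
  · simp [hy _ _ h]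
  · have : ((coeff j (F ^ l) : ℝ) : ℂ) ≠ 0 := by exact_mod_cast h
    simp only [WX_co, if_true, FX_co, map_mul, map_pow, conj_ofReal, Nat.add_sub_cancel_left, pow_add]
    push_cast; field_simp
    linear_combination (x ^ k * (coeff k (F ^ (m - l)) : ℝ) * coeff j (y.coeff l)) * e

theorem acc_iff {H : Type} [NormedAddCommGroup H] [InnerProductSpace ℂ H] (a b : H) :
    ‖b‖ ≤ ‖a + b‖ ↔ 0 ≤ ‖a‖ ^ 2 + 2 * (⟪a, b⟫_ℂ).re := by
  rw [← sq_le_sq₀ (norm_nonneg _) (norm_nonneg _), norm_add_sq (𝕜 := ℂ), le_add_iff_nonneg_left]; rfl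

theorem WX_dvd (F0 : constantCoeff F = 0) (x : ℂ) : Polynomial.C X * Polynomial.X ∣ WX F x := by
  rw [WX, ← Polynomial.C_mul_X_eq_monomial]
  refine mul_dvd_mul_right (map_dvd _ (X_dvd_iff.2 ?_)) _
  rw [← coeff_zero_eq_constantCoeff_apply, ← pow_one (FX F x), FX_co]; simp [F0]

theorem acc (hF : ∀ k, 0 ≤ coeff k F) (F0 : constantCoeff F = 0) {ι : Type} [Fintype ι] {w : ι → ℝ}
    {x : ι → ℂ} (hw : ∀ a, 0 ≤ w a) (h1 : ∑ a, w a = 1) (hx : ∀ a, ‖x a‖ = 1)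
    {y : Polynomial ℂ⟦X⟧} (hy : y ∈ SS hF) :
    ‖La F m n ((∑ a, (w a : ℂ) • ∑ i ∈ range n, WX F (x a) ^ (i + 1)) * y)‖ ≤
      ‖La F m n y + La F m n ((∑ a, (w a : ℂ) • ∑ i ∈ range n, WX F (x a) ^ (i + 1)) * y)‖ := by
  have : ∀ a, 0 ≤ w a * (‖La F m n y‖ ^ 2 + 2 * (⟪La F m n y,
      La F m n ((∑ i ∈ range n, WX F (x a) ^ (i + 1)) * y)⟫_ℂ).re) := fun a => by
    refine mul_nonneg (hw a) ((acc_iff _ _).1 ?_)
    have := La_W (m := m) (n := n) hF (hx a) (mul_mem (sum_mem fun i (_ : i ∈ range (n + 1)) =>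
      pow_mem (WX_mem hF (x a)) i) hy)
    rwa [← mul_assoc, mul_sum, sum_range_succ, sum_range_succ', add_mul, add_mul, map_add, map_add,
      La_zero (y := _ * _ * y) (by
        rw [← pow_succ']
        exact (pow_dvd_pow_of_dvd ((dvd_mul_right _ _).trans (WX_dvd F0 _)) _).mul_right _),
      add_zero, pow_zero, one_mul, add_comm _ (La F m n y), sum_congr rfl fun i _ => (pow_succ' _ i).symm] at this
  rw [acc_iff]
  refine (sum_nonneg fun a (_ : a ∈ univ) => this a).trans_eq ?_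
  simp only [mul_add, sum_add_distrib, ← sum_mul univ w, h1, one_mul, sum_mul univ, smul_mul_assoc,
    map_sum _ _ univ, map_smul, inner_sum univ, inner_smul_right, re_sum univ, re_ofReal_mul,
    mul_sum univ, mul_left_comm (2 : ℝ)]

theorem main2 {H B : Type} [NormedAddCommGroup H] [InnerProductSpace ℂ H] [FiniteDimensional ℂ H]
    [CommRing B] [Algebra ℂ B] {δ : ℝ} (h0 : 0 < δ) (hδ : δ ≤ 1) (m : ℕ) (Λ : B →ₗ[ℂ] H)
    {S : Subalgebra ℂ B} {W Ω : B} (mW : W ∈ S) (mΩ : Ω ∈ S) (hW : ∀ y ∈ S, ‖Λ (W * y)‖ ≤ ‖Λ y‖)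
    (hΩ : ∀ y ∈ S, ‖Λ (Ω * y)‖ ≤ ‖Λ y‖) (h1 : ∀ i ≤ m, ‖Λ (W ^ i)‖ = ‖Λ 1‖)
    (h2 : ∀ i j, 0 < i → ⟪Λ 1, Λ (W ^ i * Ω ^ j)⟫_ℂ = 0)
    (h3 : ∀ l ≤ m, ∀ j, l < j → ⟪Λ (W ^ l), Λ (Ω ^ j)⟫_ℂ = 0) :
    ‖∑ l ∈ range (m + 1), coeff (m - l) (KX 1 1) * ∑ j ∈ range (m + 1),
      cc δ j * ⟪Λ (W ^ l), Λ (Ω ^ j)⟫_ℂ‖ ≤ cc (1 + δ) m * ‖Λ 1‖ ^ 2 := by
  simpa using main h0 hδ m (Λ ∘ₗ S.val.toLinearMap)
    (W := LinearMap.mulLeft ℂ (⟨_, mW⟩ : S)) (Ω := LinearMap.mulLeft ℂ (⟨_, mΩ⟩ : S)) 1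
    (fun y => hW _ y.2) (fun y => hΩ _ y.2) (LinearMap.ext fun y => mul_left_comm _ _ y)
    (by simpa using h1) (by simpa using h2) (by simpa using h3)

theorem atom (hF : ∀ k, 0 ≤ coeff k F) (F0 : constantCoeff F = 0) {δ : ℝ} (h0 : 0 < δ) (hδ : δ ≤ 1)
    (hx : ‖x‖ = 1) {Ω : Polynomial ℂ⟦X⟧} (hΩ : Ω ∈ SS hF) (hd : Polynomial.X ∣ Ω) (hm : m ≤ n)
    (hc : ∀ y ∈ SS hF, ‖La F m n (Ω * y)‖ ≤ ‖La F m n y‖) :
    ‖coeff n (((1 + 2 * ∑ i ∈ range n, WX F x ^ (i + 1)) *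
      ∑ j ∈ range (n + 1), (cc δ j : ℂ) • Ω ^ j).coeff m)‖ ≤ cc (1 + δ) m * coeff n (F ^ m) := by
  have x0 : x ^ n ≠ 0 := pow_ne_zero _ fun e => by simp [e] at hx
  have hW := WX_mem hF x
  have nm : ∀ i ≤ m, ‖La F m n (WX F x ^ i)‖ ^ 2 = coeff n (F ^ m) := fun i hi => by
    have := La_pow (n := n) hF hx (pow_mem hW i) hi
    rw [WX_co, if_pos rfl, ← pow_add, Nat.add_sub_cancel' hi, FX_co, inner_self_eq_norm_sq_to_K,
      mul_right_inj' x0] at this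
    exact ofReal_injective (by rw [ofReal_pow]; exact this)
  have z : ∀ l ≤ m, ∀ y ∈ SS hF, Polynomial.X ^ (l + 1) ∣ y →
      ⟪La F m n (WX F x ^ l), La F m n y⟫_ℂ = 0 := fun l hl y hy h => by
    have := La_pow (n := n) hF hx hy hl
    rw [Polynomial.X_pow_dvd_iff.1 h l l.lt_succ_self] at this
    simpa [x0] using this
  have z3 : ∀ l ≤ m, ∀ j, l < j → ⟪La F m n (WX F x ^ l), La F m n (Ω ^ j)⟫_ℂ = 0 :=
    fun l hl j hj => z l hl _ (pow_mem hΩ j) ((pow_dvd_pow _ hj).trans (pow_dvd_pow_of_dvd hd j))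
  have n0 := nm 0 m.zero_le
  rw [pow_zero] at n0
  have := main2 h0 hδ m (La F m n) hW hΩ (fun y => La_W hF hx) hc (fun i hi => ?_)
    (fun i j hi => ?_) z3
  · rw [n0] at this
    refine le_trans (le_of_eq ?_) this
    rw [← one_mul ‖∑ _ ∈ _, _‖, ← show ‖x ^ n‖ = 1 by simp [hx], ← norm_mul, mul_comm (1 + _),
      Polynomial.coeff_mul, Nat.sum_antidiagonal_eq_sum_range_succ_mk, map_sum,
      mul_sum _ _ (x ^ n)]
    refine congrArg norm (sum_congr rfl fun l hl => ?_)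
    have hl := Nat.lt_succ_iff.1 (mem_range.1 hl)
    have e : (1 + 2 * ∑ i ∈ range n, WX F x ^ (i + 1)).coeff (m - l) =
        coeff (m - l) (KX 1 1) • FX F x ^ (m - l) := by
      have : m - l ≤ n := by omega
      generalize m - l = k at this
      rcases k with _ | k
      · simp [KX, WX_co]
      · simp [KX, WX_co, Polynomial.coeff_one, show k < n by omega, two_smul, two_mul]
    rw [sum_subset (range_subset_range.2 (Nat.succ_le_succ hm)) fun j _ hj => by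
      rw [z3 l hl j (by simp at hj; omega), mul_zero], e, mul_left_comm, mul_sum]
    simp only [mul_left_comm (x ^ n), La_pow hF hx (pow_mem hΩ _) hl, Polynomial.finsetSum_coeff,
      Polynomial.coeff_smul, mul_smul_comm, sum_mul, smul_mul_assoc, map_smul, map_sum, smul_eq_mul]
  · refine (sq_eq_sq₀ (norm_nonneg _) (norm_nonneg _)).1 ?_
    exact (nm i hi).trans n0.symm
  · simpa using z 0 m.zero_le _ (mul_mem (pow_mem hW i) (pow_mem hΩ j)) (by
      simpa using (dvd_pow ((dvd_mul_left _ _).trans (WX_dvd F0 x)) hi.ne').mul_right _)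

/-- the majorant -/
noncomputable def kap (F : ℝ⟦X⟧) (β : ℝ) (n : ℕ) : ℝ :=
  ∑ m ∈ range (n + 1), cc β m * coeff n (F ^ m)

theorem FX0 (F0 : constantCoeff F = 0) (x : ℂ) : constantCoeff (FX F x) = 0 := by
  rw [← coeff_zero_eq_constantCoeff_apply, ← pow_one (FX F x), FX_co]; simp [F0]

theorem fin (hF : ∀ k, 0 ≤ coeff k F) (F0 : constantCoeff F = 0) {δ : ℝ} (h0 : 0 < δ) (hδ : δ ≤ 1)
    {u : ℕ → ℝ} (hK : ∀ x, KX u x * (1 - FX F x) = 1 + FX F x) (n : ℕ) :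
    ∀ c ∈ TT n, ‖coeff n (BS (1 + δ) n (aa u c))‖ ≤ kap F (1 + δ) n := by
  refine TT_ind (isClosed_le (BS_cont _ _ _).norm continuous_const) fun ι _ w x hw h1 hx => ?_
  have w1 : ∑ a, (w a : ℂ) = 1 := by exact_mod_cast h1
  obtain ⟨M, hM⟩ : ∃ M, M = ∑ a, (w a : ℂ) • ∑ i ∈ range n, WX F (x a) ^ (i + 1) := ⟨_, rfl⟩
  have mM : M ∈ SS hF := hM ▸ sum_mem fun a _ => Subalgebra.smul_mem _
    (sum_mem fun i _ => pow_mem (WX_mem hF _) _) _
  have dM : Polynomial.C X * Polynomial.X ∣ M := hM ▸ dvd_sum fun a _ =>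
    dvd_smul_of_dvd _ (dvd_sum fun i _ => dvd_pow (WX_dvd F0 _) i.succ_ne_zero)
  obtain ⟨N, hN⟩ : ∃ N, N = ∑ i ∈ range (n + 1), (-M) ^ i := ⟨_, rfl⟩
  have mN : N ∈ SS hF := hN ▸ sum_mem fun i _ => pow_mem (neg_mem mM) _
  have eN : (1 + M) * N = 1 - (-M) ^ (n + 1) := by rw [hN, ← mul_neg_geom_sum, sub_neg_eq_add]
  have dN : Polynomial.C X ^ (n + 1) ∣ (-M) ^ (n + 1) :=
    pow_dvd_pow_of_dvd ((dvd_mul_right _ _).trans dM).neg_right _
  have hc : ∀ m, ∀ y ∈ SS hF, ‖La F m n (M * N * y)‖ ≤ ‖La F m n y‖ := fun m y hy => by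
    have := acc (m := m) (n := n) hF F0 hw h1 hx (mul_mem mN hy)
    rwa [← hM, ← map_add, ← one_add_mul, ← mul_assoc (1 + M), eN, sub_mul, map_sub,
      La_zero (dN.mul_right _), one_mul, sub_zero, ← mul_assoc] at this
  obtain ⟨G, hG⟩ : ∃ G, G = ∑ j ∈ range (n + 1), (cc δ j : ℂ) • (M * N) ^ j := ⟨_, rfl⟩
  have mG : (1 + 2 * M) * G ∈ SS hF := hG ▸ mul_mem (add_mem (one_mem _) (mul_mem (ofNat_mem _ 2) mM))
    (sum_mem fun j _ => Subalgebra.smul_mem _ (pow_mem (mul_mem mM mN) _) _)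
  have hb : ∀ m ≤ n, ‖coeff n (((1 + 2 * M) * G).coeff m)‖ ≤ cc (1 + δ) m * coeff n (F ^ m) := by
    intro m hm
    have e : 1 + 2 * M = ∑ a, (w a : ℂ) • (1 + 2 * ∑ i ∈ range n, WX F (x a) ^ (i + 1)) := by
      simp only [hM, smul_add, sum_add_distrib, ← sum_smul, w1, one_smul, mul_sum univ,
        mul_smul_comm]
    rw [e, sum_mul, Polynomial.finsetSum_coeff, map_sum]
    refine (norm_sum_le_of_le (n := fun a => w a * (cc (1 + δ) m * coeff n (F ^ m))) _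
      fun a _ => ?_).trans_eq (by rw [← sum_mul, h1, one_mul])
    rw [smul_mul_assoc, Polynomial.coeff_smul, map_smul, norm_smul, norm_real,
      Real.norm_of_nonneg (hw a), hG]
    exact mul_le_mul_of_nonneg_left (atom hF F0 h0 hδ (hx a) (mul_mem mM mN)
      (((dvd_mul_left _ _).trans dM).mul_right _) hm (hc m)) (hw a)
  let ev := Polynomial.evalRingHom (1 : ℂ⟦X⟧)
  have es : ∀ (r : ℂ) y, ev (r • y) = C r * ev y := fun r y => by
    simp [ev, smul_eq_C_mul]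
  have d0 : X ∣ ev M := by simpa [ev] using map_dvd ev dM
  have p : IsPow n (ev (1 + 2 * M)) δ (ev G) := by
    simp only [hG, map_sum, es, map_pow]
    refine isPow_cc (by simp [X_dvd_iff.1 d0]) ?_ δ
    have := congrArg ev eN
    simp only [map_mul, map_add, map_sub, map_one, map_pow, map_neg, map_ofNat] at this ⊢
    refine ((pow_dvd_pow_of_dvd d0.neg_right (n + 1)).mul_left (2 * ev M)).trans (dvd_of_eq ?_)
    linear_combination 2 * ev M * this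
  have q : X ^ (n + 1) ∣ ∑ a, C (w a : ℂ) * KX u (x a) - ev (1 + 2 * M) := by
    have : ev (1 + 2 * M) = ∑ a, C (w a : ℂ) * (1 + 2 * ∑ i ∈ range n, FX F (x a) ^ (i + 1)) := by
      simp only [hM, map_add, map_mul, map_sum, es, mul_add, sum_add_distrib, mul_one, ← map_sum C,
        w1, map_one, map_ofNat, mul_sum univ, mul_left_comm (2 : ℂ⟦X⟧)]
      simp [ev, WX]
    rw [this, ← sum_sub_distrib]
    refine dvd_sum fun a _ => ?_
    rw [← mul_sub]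
    refine ((unit_of (P := 1 - FX F (x a)) (by simp [FX0 F0])).dvd_mul_left.1 ?_).mul_left _
    refine ((pow_dvd_pow_of_dvd (X_dvd_iff.2 (FX0 F0 (x a))) (n + 1)).mul_left 2).trans
      (dvd_of_eq ?_)
    have := mul_neg_geom_sum (FX F (x a)) n
    simp only [pow_succ, ← sum_mul]
    linear_combination 2 * FX F (x a) * this - hK (x a)
  have r := ((isPow_one (by simp [X_dvd_iff.1 d0])).mul p).congr
    (P' := 1 + aa u fun j : Fin (n + 1) => ∑ a, w a * x a ^ (j : ℕ))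
    (by simpa using (aa_sum (n := n) h1 x u).add q)
  rw [(BS_pow _ _ _).coeff_eq (by simp [aa0]) (by exact_mod_cast r), ← map_mul,
    Polynomial.coe_evalRingHom, Polynomial.eval_eq_sum_range'
      (show _ < ((1 + 2 * M) * G).natDegree + n + 1 by omega), map_sum,
    ← sum_subset (range_subset_range.2 (show n + 1 ≤ _ by omega)) fun m _ hm => ?_]
  · exact norm_sum_le_of_le _ fun m hm => by simpa using hb m (Nat.lt_succ_iff.1 (mem_range.1 hm))
  · simpa using mG m n (X_pow_dvd_iff.1 (pow_dvd_pow_of_dvd (X_dvd_iff.2 F0) m) n (by simpa using hm))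

theorem kap_eq (F0 : constantCoeff F = 0) {u : ℕ → ℝ} (hK : KX u 1 * (1 - FX F 1) = 1 + FX F 1)
    {β : ℝ} {Q : ℂ⟦X⟧} (h : IsPow n (KX u 1) β Q) : coeff n Q = kap F β n := by
  rw [h.coeff_eq (by simp [KX]) (isPow_cc (FX0 F0 1) (by simp [hK]) β)]
  simp [kap, FX_co]

theorem all (hF : ∀ k, 0 ≤ coeff k F) (F0 : constantCoeff F = 0) {δ : ℝ} (h0 : 0 < δ) (hδ : δ ≤ 1)
    {u : ℕ → ℝ} (hu : ∀ j, 0 ≤ u j) (hK : ∀ x, KX u x * (1 - FX F x) = 1 + FX F x) {P : ℂ⟦X⟧}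
    (hP : ∀ n, ∃ c ∈ TT n, X ^ (n + 1) ∣ P - (1 + aa u c)) (N : ℕ) :
    ∀ n Q, IsPow n P (1 + δ + N : ℝ) Q → ‖coeff n Q‖ ≤ kap F (1 + δ + N) n := by
  have P0 : constantCoeff P = 1 := by
    obtain ⟨c, -, h⟩ := hP 0
    simpa [aa0] using co_eq h le_rfl
  have hb : ∀ i, ‖coeff i P‖ ≤ (coeff i (KX u 1)).re := fun i => by
    obtain ⟨c, hc, h⟩ := hP i
    have := TT_ind (n := i) (p := fun c => ‖c (Fin.last i)‖ ≤ 1)
      (isClosed_le (by fun_prop) (by fun_prop)) (fun ι _ w x hw h1 hx =>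
        (norm_sum_le _ _).trans_eq (by simp [hx, abs_of_nonneg (hw _), h1])) c hc
    rw [co_eq h le_rfl]
    rcases i with _ | i
    · simp [aa0, KX]
    · simpa [aa, KX, coeff_one, abs_of_nonneg (hu _), Fin.last] using
        mul_le_of_le_one_right (mul_nonneg zero_le_two (hu _)) this
  induction N with
  | zero =>
    intro n Q h
    obtain ⟨c, hc, e⟩ := hP n
    simp only [Nat.cast_zero, add_zero] at h ⊢
    rw [h.coeff_eq P0 ((BS_pow _ _ _).congr e)]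
    exact fin hF F0 h0 hδ hK n c hc
  | succ N ih =>
    intro n Q h
    have b : ∀ {P : ℂ⟦X⟧}, constantCoeff P = 1 → IsPow n P (1 + δ + N : ℝ)
        (BS (1 + δ + N) n (P - 1)) := fun {P} h => by
      simpa [BS] using isPow_bin (a := P - 1) (by simp [h]) (1 + δ + N) n
    have e : (1 : ℂ) + (1 + δ + N : ℝ) = (1 + δ + (N + 1 : ℕ) : ℝ) := by push_cast; ring
    have K0 : constantCoeff (KX u 1) = 1 := by simp [KX]
    have := congrArg re (kap_eq F0 (hK 1) (e ▸ (isPow_one K0).mul (b K0)))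
    rw [h.coeff_eq P0 (e ▸ (isPow_one P0).mul (b P0)), ← ofReal_re (kap _ _ _), ← this, coeff_mul,
      coeff_mul, re_sum]
    refine norm_sum_le_of_le _ fun p hp => ?_
    have hp : p.2 ≤ n := by have := mem_antidiagonal.1 hp; omega
    rw [kap_eq F0 (hK 1) ((b K0).mono hp), re_mul_ofReal, norm_mul]
    exact mul_le_mul (hb _) (ih _ _ ((b P0).mono hp)) (norm_nonneg _) ((norm_nonneg _).trans (hb _))

end Pool.Agent.H.MP_0e1b7e_an
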